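import Pool.Agent.LibSch.Defs

open Matrix Set
open scoped ComplexOrder

namespace Pool.Agent.LibSch

/-- derivative of the larger/smaller eigenvalue: first-order coefficients -/
noncomputable def hP (x y w x' y' w' : ℝ) : ℝ :=
  (x' + y' + ((x - y) * (x' - y') + 4 * w * w') / √((x - y) ^ 2 + 4 * w ^ 2)) / 2
noncomputable def hM (x y w x' y' w' : ℝ) : ℝ :=
  (x' + y' - ((x - y) * (x' - y') + 4 * w * w') / √((x - y) ^ 2 + 4 * w ^ 2)) / 2
noncomputable def hX (x y w x' y' w' : ℝ) : ℝ :=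
  ((x - y) * w' - w * (x' - y')) / √((x - y) ^ 2 + 4 * w ^ 2)

/-- first derivative of `FF` along a curve -/
noncomputable def D1 (s x y w x' y' w' : ℝ) : ℝ :=
  s * lamP x y w ^ (s - 1) * hP x y w x' y' w' + s * lamM x y w ^ (s - 1) * hM x y w x' y' w'

/-- second derivative of `FF` along a curve -/
noncomputable def D2 (s x y w x' y' w' x'' y'' w'' : ℝ) : ℝ :=
  s * (lamP x y w ^ (s - 1) * hP x y w x'' y'' w'' + lamM x y w ^ (s - 1) * hM x y w x'' y'' w'')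
  + 2 * s * (lamP x y w ^ (s - 1) - lamM x y w ^ (s - 1)) / √((x - y) ^ 2 + 4 * w ^ 2)
      * hX x y w x' y' w' ^ 2
  + s * (s - 1) * (lamP x y w ^ (s - 1) * hP x y w x' y' w' ^ 2 / lamP x y w
      + lamM x y w ^ (s - 1) * hM x y w x' y' w' ^ 2 / lamM x y w)

theorem calc_rad_pos {x y w : ℝ} (hw : 0 < w) : 0 < (x - y) ^ 2 + 4 * w ^ 2 := by positivity

theorem calc_sqrt_pos {x y w : ℝ} (hw : 0 < w) : 0 < √((x - y) ^ 2 + 4 * w ^ 2) :=
  Real.sqrt_pos.2 (calc_rad_pos hw)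

theorem calc_lamP_pos {x y w : ℝ} (hx : 0 < x) (hy : 0 < y) : 0 < lamP x y w := by
  unfold lamP; positivity

theorem calc_lamM_pos {x y w : ℝ} (hdet : w ^ 2 < x * y) (hx : 0 < x) (hy : 0 < y) :
    0 < lamM x y w := by
  unfold lamM
  have : √((x - y) ^ 2 + 4 * w ^ 2) < x + y := by
    rw [Real.sqrt_lt' (by positivity)]
    nlinarith
  linarith

theorem calc_hasDerivAt_sqrt (t : ℝ) (g h f : ℝ → ℝ) (g' h' f' : ℝ) (hw : 0 < f t)
    (hg : HasDerivAt g g' t) (hh : HasDerivAt h h' t) (hf : HasDerivAt f f' t) :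
    HasDerivAt (fun r => √((g r - h r) ^ 2 + 4 * f r ^ 2))
      (((g t - h t) * (g' - h') + 4 * f t * f') / √((g t - h t) ^ 2 + 4 * f t ^ 2)) t := by
  have h1 : HasDerivAt (fun r => (g r - h r) ^ 2 + 4 * f r ^ 2)
      (2 * ((g t - h t) * (g' - h') + 4 * f t * f')) t := by
    refine (((hg.sub hh).pow 2).add ((hf.pow 2).const_mul 4)).congr_deriv ?_
    simp only [Pi.sub_apply]
    push_cast
    ring
  have h2 := h1.sqrt (calc_rad_pos hw).ne'
  refine h2.congr_deriv ?_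
  rw [mul_div_mul_left _ _ (two_ne_zero)]

theorem calc_hasDerivAt_lamP (t : ℝ) (g h f : ℝ → ℝ) (g' h' f' : ℝ) (hw : 0 < f t)
    (hg : HasDerivAt g g' t) (hh : HasDerivAt h h' t) (hf : HasDerivAt f f' t) :
    HasDerivAt (fun r => lamP (g r) (h r) (f r)) (hP (g t) (h t) (f t) g' h' f') t :=
  ((hg.add hh).add (calc_hasDerivAt_sqrt t g h f g' h' f' hw hg hh hf)).div_const 2

theorem calc_hasDerivAt_lamM (t : ℝ) (g h f : ℝ → ℝ) (g' h' f' : ℝ) (hw : 0 < f t)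
    (hg : HasDerivAt g g' t) (hh : HasDerivAt h h' t) (hf : HasDerivAt f f' t) :
    HasDerivAt (fun r => lamM (g r) (h r) (f r)) (hM (g t) (h t) (f t) g' h' f') t :=
  ((hg.add hh).sub (calc_hasDerivAt_sqrt t g h f g' h' f' hw hg hh hf)).div_const 2

theorem hasDerivAt_FF (s t : ℝ) (g h f : ℝ → ℝ) (g' h' f' : ℝ)
    (hw : 0 < f t) (hdet : f t ^ 2 < g t * h t) (hg0 : 0 < g t) (hh0 : 0 < h t)
    (hg : HasDerivAt g g' t) (hh : HasDerivAt h h' t) (hf : HasDerivAt f f' t) :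
    HasDerivAt (fun r => FF s (g r) (h r) (f r)) (D1 s (g t) (h t) (f t) g' h' f') t := by
  have h1 := (calc_hasDerivAt_lamP t g h f g' h' f' hw hg hh hf).rpow_const (p := s)
    (Or.inl (calc_lamP_pos hg0 hh0).ne')
  have h2 := (calc_hasDerivAt_lamM t g h f g' h' f' hw hg hh hf).rpow_const (p := s)
    (Or.inl (calc_lamM_pos hdet hg0 hh0).ne')
  refine (h1.add h2).congr_deriv ?_
  unfold D1
  ring

/-- the quotient `((x-y)(x'-y')+4ww')/δ` along a curve -/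
theorem calc_hasDerivAt_quot (t : ℝ) (g h f g' h' f' : ℝ → ℝ) (g'' h'' f'' : ℝ) (hw : 0 < f t)
    (hg : HasDerivAt g (g' t) t) (hh : HasDerivAt h (h' t) t) (hf : HasDerivAt f (f' t) t)
    (hg' : HasDerivAt g' g'' t) (hh' : HasDerivAt h' h'' t) (hf' : HasDerivAt f' f'' t) :
    HasDerivAt (fun r => ((g r - h r) * (g' r - h' r) + 4 * f r * f' r) /
        √((g r - h r) ^ 2 + 4 * f r ^ 2))
      (((g t - h t) * (g'' - h'') + 4 * f t * f'') / √((g t - h t) ^ 2 + 4 * f t ^ 2)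
        + 4 * hX (g t) (h t) (f t) (g' t) (h' t) (f' t) ^ 2 / √((g t - h t) ^ 2 + 4 * f t ^ 2)) t := by
  have hδ := calc_sqrt_pos (x := g t) (y := h t) hw
  have hsq : √((g t - h t) ^ 2 + 4 * f t ^ 2) ^ 2 = (g t - h t) ^ 2 + 4 * f t ^ 2 :=
    Real.sq_sqrt (calc_rad_pos hw).le
  have h1 : HasDerivAt (fun r => (g r - h r) * (g' r - h' r) + 4 * f r * f' r)
      ((g' t - h' t) * (g' t - h' t) + (g t - h t) * (g'' - h'')
        + (4 * f' t * f' t + 4 * f t * f'')) t :=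
    ((hg.sub hh).mul (hg'.sub hh')).add ((hf.const_mul 4).mul hf')
  have h2 := h1.div (calc_hasDerivAt_sqrt t g h f _ _ _ hw hg hh hf) hδ.ne'
  refine h2.congr_deriv ?_
  unfold hX
  set δ := √((g t - h t) ^ 2 + 4 * f t ^ 2) with hδdef
  have hδ0 : δ ≠ 0 := hδ.ne'
  have key : 4 * ((g t - h t) * f' t - f t * (g' t - h' t)) ^ 2 =
      ((g' t - h' t) * (g' t - h' t) + 4 * f' t * f' t) * δ ^ 2
        - ((g t - h t) * (g' t - h' t) + 4 * f t * f' t) ^ 2 := by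
    rw [hsq]; ring
  field_simp
  linear_combination -key

theorem calc_hasDerivAt_hP (t : ℝ) (g h f g' h' f' : ℝ → ℝ) (g'' h'' f'' : ℝ) (hw : 0 < f t)
    (hg : HasDerivAt g (g' t) t) (hh : HasDerivAt h (h' t) t) (hf : HasDerivAt f (f' t) t)
    (hg' : HasDerivAt g' g'' t) (hh' : HasDerivAt h' h'' t) (hf' : HasDerivAt f' f'' t) :
    HasDerivAt (fun r => hP (g r) (h r) (f r) (g' r) (h' r) (f' r))
      (hP (g t) (h t) (f t) g'' h'' f''
        + 2 * hX (g t) (h t) (f t) (g' t) (h' t) (f' t) ^ 2 / √((g t - h t) ^ 2 + 4 * f t ^ 2)) t := by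
  have h1 := ((hg'.add hh').add
    (calc_hasDerivAt_quot t g h f g' h' f' g'' h'' f'' hw hg hh hf hg' hh' hf')).div_const 2
  refine h1.congr_deriv ?_
  unfold hP
  ring

theorem calc_hasDerivAt_hM (t : ℝ) (g h f g' h' f' : ℝ → ℝ) (g'' h'' f'' : ℝ) (hw : 0 < f t)
    (hg : HasDerivAt g (g' t) t) (hh : HasDerivAt h (h' t) t) (hf : HasDerivAt f (f' t) t)
    (hg' : HasDerivAt g' g'' t) (hh' : HasDerivAt h' h'' t) (hf' : HasDerivAt f' f'' t) :
    HasDerivAt (fun r => hM (g r) (h r) (f r) (g' r) (h' r) (f' r))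
      (hM (g t) (h t) (f t) g'' h'' f''
        - 2 * hX (g t) (h t) (f t) (g' t) (h' t) (f' t) ^ 2 / √((g t - h t) ^ 2 + 4 * f t ^ 2)) t := by
  have h1 := ((hg'.add hh').sub
    (calc_hasDerivAt_quot t g h f g' h' f' g'' h'' f'' hw hg hh hf hg' hh' hf')).div_const 2
  refine h1.congr_deriv ?_
  unfold hM
  ring

theorem hasDerivAt_D1 (s t : ℝ) (g h f g' h' f' : ℝ → ℝ) (g'' h'' f'' : ℝ)
    (hw : 0 < f t) (hdet : f t ^ 2 < g t * h t) (hg0 : 0 < g t) (hh0 : 0 < h t)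
    (hg : HasDerivAt g (g' t) t) (hh : HasDerivAt h (h' t) t) (hf : HasDerivAt f (f' t) t)
    (hg' : HasDerivAt g' g'' t) (hh' : HasDerivAt h' h'' t) (hf' : HasDerivAt f' f'' t) :
    HasDerivAt (fun r => D1 s (g r) (h r) (f r) (g' r) (h' r) (f' r))
      (D2 s (g t) (h t) (f t) (g' t) (h' t) (f' t) g'' h'' f'') t := by
  have hlP := calc_lamP_pos (w := f t) hg0 hh0
  have hlM := calc_lamM_pos hdet hg0 hh0
  have h1 := (calc_hasDerivAt_lamP t g h f _ _ _ hw hg hh hf).rpow_const (p := s - 1)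
    (Or.inl hlP.ne')
  have h2 := (calc_hasDerivAt_lamM t g h f _ _ _ hw hg hh hf).rpow_const (p := s - 1)
    (Or.inl hlM.ne')
  have h3 := calc_hasDerivAt_hP t g h f g' h' f' g'' h'' f'' hw hg hh hf hg' hh' hf'
  have h4 := calc_hasDerivAt_hM t g h f g' h' f' g'' h'' f'' hw hg hh hf hg' hh' hf'
  have h5 := ((h1.const_mul s).mul h3).add ((h2.const_mul s).mul h4)
  refine h5.congr_deriv ?_
  rw [Real.rpow_sub_one hlP.ne' (s - 1), Real.rpow_sub_one hlM.ne' (s - 1)]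
  unfold D2
  ring

end Pool.Agent.LibSch
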