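import Pool.Agent.LibSch.Seg

open Matrix Set
open scoped ComplexOrder

namespace Pool.Agent.LibSch


theorem lamP_smul (c x y w : ℝ) (hc : 0 ≤ c) :
    lamP (c * x) (c * y) (c * w) = c * lamP x y w := by
  unfold lamP
  have : (c * x - c * y) ^ 2 + 4 * (c * w) ^ 2 = c ^ 2 * ((x - y) ^ 2 + 4 * w ^ 2) := by ring
  rw [this, Real.sqrt_mul (by positivity), Real.sqrt_sq hc]
  ring

theorem lamM_smul (c x y w : ℝ) (hc : 0 ≤ c) :
    lamM (c * x) (c * y) (c * w) = c * lamM x y w := by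
  unfold lamM
  have : (c * x - c * y) ^ 2 + 4 * (c * w) ^ 2 = c ^ 2 * ((x - y) ^ 2 + 4 * w ^ 2) := by ring
  rw [this, Real.sqrt_mul (by positivity), Real.sqrt_sq hc]
  ring

theorem lamM_nonneg (x y w : ℝ) (hx : 0 ≤ x) (hy : 0 ≤ y) (h : w ^ 2 ≤ x * y) :
    0 ≤ lamM x y w := by
  unfold lamM
  have : √((x - y) ^ 2 + 4 * w ^ 2) ≤ x + y := by
    apply Real.sqrt_le_iff.2
    constructor
    · positivity
    · nlinarith
  linarith

theorem lamP_nonneg (x y w : ℝ) (hx : 0 ≤ x) (hy : 0 ≤ y) :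
    0 ≤ lamP x y w := by
  unfold lamP
  positivity

theorem FF_smul (s c x y w : ℝ) (hc : 0 ≤ c) (hx : 0 ≤ x) (hy : 0 ≤ y) (h : w ^ 2 ≤ x * y) :
    FF s (c * x) (c * y) (c * w) = c ^ s * FF s x y w := by
  unfold FF
  rw [lamP_smul _ _ _ _ hc, lamM_smul _ _ _ _ hc, Real.mul_rpow hc (lamP_nonneg _ _ _ hx hy),
    Real.mul_rpow hc (lamM_nonneg _ _ _ hx hy h)]
  ring

theorem rpow_half_sq (s a : ℝ) (hs : 0 < s) (ha : 0 ≤ a) :
    (a ^ (1 / (2 * s))) ^ 2 = a ^ (1 / s) := by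
  rw [← Real.rpow_natCast, ← Real.rpow_mul ha]
  congr 1
  push_cast
  field_simp

theorem PhiE_smul {N : ℕ} (s c : ℝ) (hs : 0 < s) (hc : 0 ≤ c) (x y : Fin N → ℝ)
    (hx : ∀ k, 0 ≤ x k) (hy : ∀ k, 0 ≤ y k) :
    PhiE 0 s (fun k => c * x k) (fun k => c * y k) = c * PhiE 0 s x y := by
  unfold PhiE
  have h1 : ∀ z : Fin N → ℝ, (∀ k, 0 ≤ z k) →
      (0 : ℝ) + ∑ k, (c * z k) ^ (1 / s) = c ^ (1 / s) * (0 + ∑ k, z k ^ (1 / s)) := by
    intro z hz
    rw [zero_add, zero_add, Finset.mul_sum]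
    exact Finset.sum_congr rfl fun k _ => Real.mul_rpow hc (hz k)
  have h2 : ∑ k, (c * x k) ^ (1 / (2 * s)) * (c * y k) ^ (1 / (2 * s)) =
      c ^ (1 / s) * ∑ k, x k ^ (1 / (2 * s)) * y k ^ (1 / (2 * s)) := by
    rw [Finset.mul_sum]
    refine Finset.sum_congr rfl fun k _ => ?_
    rw [Real.mul_rpow hc (hx k), Real.mul_rpow hc (hy k), ← rpow_half_sq s c hs hc]
    ring
  rw [h1 x hx, h1 y hy, h2, FF_smul]
  · rw [← Real.rpow_mul hc]
    rw [one_div, inv_mul_cancel₀ hs.ne', Real.rpow_one]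
  · positivity
  · rw [zero_add]; exact Finset.sum_nonneg fun k _ => Real.rpow_nonneg (hx k) _
  · rw [zero_add]; exact Finset.sum_nonneg fun k _ => Real.rpow_nonneg (hy k) _
  · rw [zero_add, zero_add]
    have h3 : ∀ z : Fin N → ℝ, (∀ k, 0 ≤ z k) →
        ∑ k, z k ^ (1 / s) = ∑ k, (z k ^ (1 / (2 * s))) ^ 2 := by
      intro z hz
      exact Finset.sum_congr rfl fun k _ => (rpow_half_sq s _ hs (hz k)).symm
    rw [h3 x hx, h3 y hy]
    exact Finset.sum_mul_sq_le_sq_mul_sq _ _ _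

theorem continuous_FF (s : ℝ) (hs : 0 ≤ s) {X : Type} [TopologicalSpace X] (f g h : X → ℝ)
    (hf : Continuous f) (hg : Continuous g) (hh : Continuous h) :
    Continuous fun r => FF s (f r) (g r) (h r) := by
  unfold FF lamP lamM
  have hsq : Continuous fun r => √((f r - g r) ^ 2 + 4 * h r ^ 2) := by fun_prop
  exact (Real.continuous_rpow_const hs |>.comp (((hf.add hg).add hsq).div_const 2)).add
    (Real.continuous_rpow_const hs |>.comp (((hf.add hg).sub hsq).div_const 2))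

theorem continuous_PhiE {N : ℕ} (s : ℝ) (hs : 0 < s) (e : ℝ → ℝ) (x y : ℝ → Fin N → ℝ)
    (he : Continuous e) (hx : ∀ k, Continuous fun r => x r k)
    (hy : ∀ k, Continuous fun r => y r k) :
    Continuous fun r => PhiE (e r) s (x r) (y r) := by
  unfold PhiE
  have h1 : 0 ≤ 1 / s := by positivity
  have h2 : 0 ≤ 1 / (2 * s) := by positivity
  refine continuous_FF s hs.le _ _ _ ?_ ?_ ?_
  · exact he.add (continuous_finsetSum _ fun k _ =>
      (Real.continuous_rpow_const h1).comp (hx k))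
  · exact he.add (continuous_finsetSum _ fun k _ =>
      (Real.continuous_rpow_const h1).comp (hy k))
  · exact continuous_finsetSum _ fun k _ =>
      ((Real.continuous_rpow_const h2).comp (hx k)).mul
        ((Real.continuous_rpow_const h2).comp (hy k))

/-- the midpoint inequality for `PhiE 0` on the closed orthant -/
theorem PhiE_mid {N : ℕ} (s : ℝ) (hs : 1 / 2 < s) (hs1 : s ≠ 1)
    (x y x' y' : Fin N → ℝ) (hx : ∀ k, 0 ≤ x k) (hy : ∀ k, 0 ≤ y k) (hx' : ∀ k, 0 ≤ x' k)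
    (hy' : ∀ k, 0 ≤ y' k) :
    0 ≤ (1 - s) * ((1 - 1 / 2) * PhiE 0 s x y + 1 / 2 * PhiE 0 s x' y'
      - PhiE 0 s (fun k => (1 - 1 / 2) * x k + 1 / 2 * x' k)
          (fun k => (1 - 1 / 2) * y k + 1 / 2 * y' k)) := by
  have hs0 : 0 < s := by linarith
  set F : ℝ → ℝ := fun η => (1 - s) * ((1 - 1 / 2) * PhiE η s (fun k => x k + η) (fun k => y k + η)
    + 1 / 2 * PhiE η s (fun k => x' k + η) (fun k => y' k + η)
      - PhiE η s (fun k => (1 - 1 / 2) * (x k + η) + 1 / 2 * (x' k + η))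
          (fun k => (1 - 1 / 2) * (y k + η) + 1 / 2 * (y' k + η))) with hF
  have hcont : Continuous F := by
    refine continuous_const.mul (((continuous_const.mul ?_).add (continuous_const.mul ?_)).sub ?_)
    · exact continuous_PhiE s hs0 (fun η => η) (fun η k => x k + η) (fun η k => y k + η)
        continuous_id (fun k => by fun_prop) (fun k => by fun_prop)
    · exact continuous_PhiE s hs0 (fun η => η) (fun η k => x' k + η) (fun η k => y' k + η)
        continuous_id (fun k => by fun_prop) (fun k => by fun_prop)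
    · exact continuous_PhiE s hs0 (fun η => η)
        (fun η k => (1 - 1 / 2) * (x k + η) + 1 / 2 * (x' k + η))
        (fun η k => (1 - 1 / 2) * (y k + η) + 1 / 2 * (y' k + η))
        continuous_id (fun k => by fun_prop) (fun k => by fun_prop)
  have hpos : ∀ η, 0 < η → 0 ≤ F η := by
    intro η hη
    exact PhiE_seg s η hs hs1 hη _ _ _ _ (fun k => by have := hx k; positivity)
      (fun k => by have := hy k; positivity) (fun k => by have := hx' k; positivity)
      (fun k => by have := hy' k; positivity) (1 / 2) (by norm_num) (by norm_num)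
  have h0 : 0 ≤ F 0 := by
    have ht : Filter.Tendsto F (nhdsWithin 0 (Ioi 0)) (nhds (F 0)) :=
      (hcont.tendsto 0).mono_left nhdsWithin_le_nhds
    exact ge_of_tendsto ht (Filter.eventually_of_mem self_mem_nhdsWithin fun η hη => hpos η hη)
  simpa [hF] using h0

/-- the two-term inequality, `s > 1/2`, `s ≠ 1` -/
theorem PhiE_two {N : ℕ} (s : ℝ) (hs : 1 / 2 < s) (hs1 : s ≠ 1)
    (x y x' y' : Fin N → ℝ) (hx : ∀ k, 0 ≤ x k) (hy : ∀ k, 0 ≤ y k) (hx' : ∀ k, 0 ≤ x' k)
    (hy' : ∀ k, 0 ≤ y' k) :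
    0 ≤ (1 - s) * (PhiE 0 s x y + PhiE 0 s x' y'
      - PhiE 0 s (fun k => x k + x' k) (fun k => y k + y' k)) := by
  have h := PhiE_mid s hs hs1 x y x' y' hx hy hx' hy'
  have h1 : PhiE 0 s (fun k => (1 - 1 / 2) * x k + 1 / 2 * x' k)
      (fun k => (1 - 1 / 2) * y k + 1 / 2 * y' k) =
      1 / 2 * PhiE 0 s (fun k => x k + x' k) (fun k => y k + y' k) := by
    rw [← PhiE_smul s (1 / 2) (by linarith) (by norm_num) _ _
      (fun k => add_nonneg (hx k) (hx' k)) (fun k => add_nonneg (hy k) (hy' k))]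
    congr 1
    · funext k; ring
    · funext k; ring
  rw [h1] at h
  nlinarith

theorem continuousAt_PhiE_exp {N : ℕ} (x y : Fin N → ℝ) (s : ℝ) (hs : 0 < s) :
    ContinuousAt (fun r => PhiE 0 r x y) s := by
  unfold PhiE FF lamP lamM
  have hinv : ContinuousAt (fun r : ℝ => 1 / r) s := continuousAt_const.div continuousAt_id hs.ne'
  have hinv2 : ContinuousAt (fun r : ℝ => 1 / (2 * r)) s :=
    continuousAt_const.div (continuousAt_const.mul continuousAt_id) (by positivity)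
  have hz : ∀ z : Fin N → ℝ, ContinuousAt (fun r : ℝ => (0 : ℝ) + ∑ k, z k ^ (1 / r)) s := by
    intro z
    refine continuousAt_const.add (tendsto_finsetSum _ fun k _ => ?_)
    exact ContinuousAt.rpow continuousAt_const hinv (Or.inr (by positivity))
  have hw : ContinuousAt (fun r : ℝ => ∑ k, x k ^ (1 / (2 * r)) * y k ^ (1 / (2 * r))) s := by
    refine tendsto_finsetSum _ fun k _ => ?_
    exact (ContinuousAt.rpow continuousAt_const hinv2 (Or.inr (by positivity))).mul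
      (ContinuousAt.rpow continuousAt_const hinv2 (Or.inr (by positivity)))
  have hx := hz x
  have hy := hz y
  have hsq : ContinuousAt (fun r : ℝ => √(((0 + ∑ k, x k ^ (1 / r)) -
      (0 + ∑ k, y k ^ (1 / r))) ^ 2 +
      4 * (∑ k, x k ^ (1 / (2 * r)) * y k ^ (1 / (2 * r))) ^ 2)) s :=
    (((hx.sub hy).pow 2).add (continuousAt_const.mul (hw.pow 2))).sqrt
  exact (ContinuousAt.rpow (((hx.add hy).add hsq).div_const 2) continuousAt_id (Or.inr hs)).add
    (ContinuousAt.rpow (((hx.add hy).sub hsq).div_const 2) continuousAt_id (Or.inr hs))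

theorem PhiE_one {N : ℕ} (x y : Fin N → ℝ) :
    PhiE 0 1 x y = ∑ k, x k + ∑ k, y k := by
  unfold PhiE FF lamP lamM
  simp only [Real.rpow_one, div_one]
  ring

theorem PhiE_two_sub {N : ℕ} (s : ℝ) (hs : 1 / 2 ≤ s) (hs1 : s ≤ 1)
    (x y x' y' : Fin N → ℝ) (hx : ∀ k, 0 ≤ x k) (hy : ∀ k, 0 ≤ y k) (hx' : ∀ k, 0 ≤ x' k)
    (hy' : ∀ k, 0 ≤ y' k) :
    PhiE 0 s (fun k => x k + x' k) (fun k => y k + y' k) ≤ PhiE 0 s x y + PhiE 0 s x' y' := by
  have main : ∀ r, 1 / 2 < r → r < 1 →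
      PhiE 0 r (fun k => x k + x' k) (fun k => y k + y' k) ≤ PhiE 0 r x y + PhiE 0 r x' y' := by
    intro r hr hr1
    have h := PhiE_two r hr hr1.ne x y x' y' hx hy hx' hy'
    have h' := nonneg_of_mul_nonneg_right h (by linarith : 0 < 1 - r)
    linarith
  rcases hs1.lt_or_eq with h1 | h1
  · rcases hs.lt_or_eq with h2 | h2
    · exact main s h2 h1
    · subst h2
      have hc1 := continuousAt_PhiE_exp (fun k => x k + x' k) (fun k => y k + y' k) (1 / 2)
        (by norm_num)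
      have hc2 := (continuousAt_PhiE_exp x y (1 / 2) (by norm_num)).add
        (continuousAt_PhiE_exp x' y' (1 / 2) (by norm_num))
      have ht1 : Filter.Tendsto (fun r => PhiE 0 r (fun k => x k + x' k) (fun k => y k + y' k))
          (nhdsWithin (1 / 2) (Ioo (1 / 2) 1)) (nhds _) := hc1.tendsto.mono_left nhdsWithin_le_nhds
      have ht2 : Filter.Tendsto (fun r => PhiE 0 r x y + PhiE 0 r x' y')
          (nhdsWithin (1 / 2) (Ioo (1 / 2) 1)) (nhds _) := hc2.tendsto.mono_left nhdsWithin_le_nhds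
      have hne : (nhdsWithin (1 / 2 : ℝ) (Ioo (1 / 2) 1)).NeBot :=
        left_nhdsWithin_Ioo_neBot (by norm_num)
      exact le_of_tendsto_of_tendsto ht1 ht2
        (Filter.eventually_of_mem self_mem_nhdsWithin fun r hr => main r hr.1 hr.2)
  · subst h1
    rw [PhiE_one, PhiE_one, PhiE_one, Finset.sum_add_distrib, Finset.sum_add_distrib]
    apply le_of_eq
    ring

theorem PhiE_two_super {N : ℕ} (s : ℝ) (hs : 1 ≤ s)
    (x y x' y' : Fin N → ℝ) (hx : ∀ k, 0 ≤ x k) (hy : ∀ k, 0 ≤ y k) (hx' : ∀ k, 0 ≤ x' k)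
    (hy' : ∀ k, 0 ≤ y' k) :
    PhiE 0 s x y + PhiE 0 s x' y' ≤ PhiE 0 s (fun k => x k + x' k) (fun k => y k + y' k) := by
  rcases hs.lt_or_eq with h1 | h1
  · have h := PhiE_two s (by linarith) h1.ne' x y x' y' hx hy hx' hy'
    by_contra hcon
    push Not at hcon
    have : (1 - s) * (PhiE 0 s x y + PhiE 0 s x' y'
      - PhiE 0 s (fun k => x k + x' k) (fun k => y k + y' k)) < 0 :=
      mul_neg_of_neg_of_pos (by linarith) (by linarith)
    linarith
  · subst h1
    rw [PhiE_one, PhiE_one, PhiE_one, Finset.sum_add_distrib, Finset.sum_add_distrib]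
    apply le_of_eq
    ring

theorem PhiE_zero_zero {N : ℕ} (s : ℝ) (hs : 0 < s) :
    PhiE (N := N) 0 s (fun _ => 0) (fun _ => 0) = 0 := by
  unfold PhiE FF lamP lamM
  have h1 : (1 / s : ℝ) ≠ 0 := by positivity
  have h2 : (1 / (2 * s) : ℝ) ≠ 0 := by positivity
  simp only [Real.zero_rpow h1, Real.zero_rpow h2]
  simp [Real.zero_rpow hs.ne']

theorem Phi_subadd {N : ℕ} {ι : Type} [Fintype ι] (s : ℝ) (hs : 1 / 2 ≤ s) (hs1 : s ≤ 1)
    (x y : ι → Fin N → ℝ) (hx : ∀ i k, 0 ≤ x i k) (hy : ∀ i k, 0 ≤ y i k) :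
    PhiE 0 s (fun k => ∑ i, x i k) (fun k => ∑ i, y i k) ≤ ∑ i, PhiE 0 s (x i) (y i) := by
  classical
  have key : ∀ S : Finset ι, PhiE 0 s (fun k => ∑ i ∈ S, x i k) (fun k => ∑ i ∈ S, y i k) ≤
      ∑ i ∈ S, PhiE 0 s (x i) (y i) := by
    intro S
    induction S using Finset.induction_on with
    | empty =>
      simp only [Finset.sum_empty]
      exact (PhiE_zero_zero s (by linarith)).le
    | insert a S ha ih =>
      simp only [Finset.sum_insert ha]
      exact (PhiE_two_sub s hs hs1 (x a) (y a) (fun k => ∑ i ∈ S, x i k)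
        (fun k => ∑ i ∈ S, y i k) (hx a) (hy a)
        (fun k => Finset.sum_nonneg fun i _ => hx i k)
        (fun k => Finset.sum_nonneg fun i _ => hy i k)).trans (by linarith)
  exact key Finset.univ

theorem Phi_superadd {N : ℕ} {ι : Type} [Fintype ι] (s : ℝ) (hs : 1 ≤ s)
    (x y : ι → Fin N → ℝ) (hx : ∀ i k, 0 ≤ x i k) (hy : ∀ i k, 0 ≤ y i k) :
    ∑ i, PhiE 0 s (x i) (y i) ≤ PhiE 0 s (fun k => ∑ i, x i k) (fun k => ∑ i, y i k) := by
  classical
  have key : ∀ S : Finset ι, ∑ i ∈ S, PhiE 0 s (x i) (y i) ≤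
      PhiE 0 s (fun k => ∑ i ∈ S, x i k) (fun k => ∑ i ∈ S, y i k) := by
    intro S
    induction S using Finset.induction_on with
    | empty =>
      simp only [Finset.sum_empty]
      exact (PhiE_zero_zero s (by linarith)).ge
    | insert a S ha ih =>
      simp only [Finset.sum_insert ha]
      refine le_trans ?_ (PhiE_two_super s hs (x a) (y a) (fun k => ∑ i ∈ S, x i k)
        (fun k => ∑ i ∈ S, y i k) (hx a) (hy a)
        (fun k => Finset.sum_nonneg fun i _ => hx i k)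
        (fun k => Finset.sum_nonneg fun i _ => hy i k))
      linarith
  exact key Finset.univ

end Pool.Agent.LibSch
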