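import Mathlib

open Matrix
open scoped ComplexOrder

namespace Pool.Agent.LibSch

section defs

variable {m n : Type} [Fintype m] [Fintype n] [DecidableEq n]

/-- `tr |M|^p`: the sum of the `p`-th powers of the singular values of `M`, the singular values
being the square roots of the eigenvalues of `MᴴM`. -/
noncomputable def pw (p : ℝ) (M : Matrix m n ℂ) : ℝ :=
  ∑ j, (isHermitian_conjTranspose_mul_self M).eigenvalues j ^ (p / 2)

/-- The Schatten `p`-norm of `M`. -/
noncomputable def sn (p : ℝ) (M : Matrix m n ℂ) : ℝ := pw p M ^ (1 / p)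

end defs

section blocks

variable {N : ℕ} {m₁ m₂ : Type} {n : Fin N → Type}

/-- The `2 × N` block matrix with blocks `A k` in the upper row and `B k` in the lower row. -/
def blk (A : ∀ k, Matrix m₁ (n k) ℂ) (B : ∀ k, Matrix m₂ (n k) ℂ) :
    Matrix (m₁ ⊕ m₂) (Σ k, n k) ℂ :=
  Matrix.of fun i c => Sum.elim (fun r => A c.1 r c.2) (fun r => B c.1 r c.2) i

variable [Fintype m₁] [Fintype m₂] [∀ k, Fintype (n k)] [∀ k, DecidableEq (n k)]

/-- The Schatten `p`-norm compression: the `2 × N` matrix of the Schatten `p`-norms of the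
blocks. -/
noncomputable def comp (p : ℝ) (A : ∀ k, Matrix m₁ (n k) ℂ) (B : ∀ k, Matrix m₂ (n k) ℂ) :
    Matrix (Fin 2) (Fin N) ℂ :=
  Matrix.of fun i k => ((![sn p (A k), sn p (B k)] i : ℝ) : ℂ)

/-- The conjectured inequality for the exponent `p` and the `2 × N` block matrix `blk A B`. -/
def Holds (p : ℝ) (A : ∀ k, Matrix m₁ (n k) ℂ) (B : ∀ k, Matrix m₂ (n k) ℂ) : Prop :=
  (1 ≤ p → p ≤ 2 → sn p (comp p A B) ≤ sn p (blk A B)) ∧
    (2 ≤ p → sn p (blk A B) ≤ sn p (comp p A B))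

end blocks

/-- larger eigenvalue of the real symmetric matrix `!![x, w; w, y]` -/
noncomputable def lamP (x y w : ℝ) : ℝ := (x + y + √((x - y) ^ 2 + 4 * w ^ 2)) / 2

/-- smaller eigenvalue of the real symmetric matrix `!![x, w; w, y]` -/
noncomputable def lamM (x y w : ℝ) : ℝ := (x + y - √((x - y) ^ 2 + 4 * w ^ 2)) / 2

/-- the sum of the `s`-th powers of the two eigenvalues of `!![x, w; w, y]` -/
noncomputable def FF (s x y w : ℝ) : ℝ := lamP x y w ^ s + lamM x y w ^ s

/-- `FF` for the Gram matrix of the two vectors `(x_k^{1/2s})`, `(y_k^{1/2s})`, plus `ε` times the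
identity. -/
noncomputable def PhiE {N : ℕ} (ε s : ℝ) (x y : Fin N → ℝ) : ℝ :=
  FF s (ε + ∑ k, x k ^ (1 / s)) (ε + ∑ k, y k ^ (1 / s))
    (∑ k, x k ^ (1 / (2 * s)) * y k ^ (1 / (2 * s)))

end Pool.Agent.LibSch
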