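import Pool.Agent.LibSch.PwBasic

open Matrix Set
open scoped ComplexOrder

namespace Pool.Agent.LibSch


/-- swapping the two outer indices of a doubly indexed sigma type -/
def sigmaSwap {N : ℕ} {ι : Type} (n : Fin N → ι → Type) :
    (Σ k, Σ i, n k i) ≃ Σ i, Σ k, n k i where
  toFun x := ⟨x.2.1, x.1, x.2.2⟩
  invFun x := ⟨x.2.1, x.1, x.2.2⟩
  left_inv _ := rfl
  right_inv _ := rfl

theorem blk_mul_mul {N : ℕ} {m₁ m₂ : Type} {n : Fin N → Type} [Fintype m₁] [Fintype m₂]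
    [∀ k, Fintype (n k)] [∀ k, DecidableEq (n k)]
    (A : ∀ k, Matrix m₁ (n k) ℂ) (B : ∀ k, Matrix m₂ (n k) ℂ)
    (U₁ : Matrix m₁ m₁ ℂ) (U₂ : Matrix m₂ m₂ ℂ) (V : ∀ k, Matrix (n k) (n k) ℂ) :
    blk (fun k => U₁ * A k * V k) (fun k => U₂ * B k * V k) =
      fromBlocks U₁ 0 0 U₂ * blk A B * blockDiagonal' V := by
  have key : ∀ (C : Matrix (m₁ ⊕ m₂) (Σ k, n k) ℂ) (i : m₁ ⊕ m₂) (k : Fin N) (c : n k),
      (C * blockDiagonal' V) i ⟨k, c⟩ = ∑ c', C i ⟨k, c'⟩ * V k c' c := by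
    intro C i k c
    rw [Matrix.mul_apply, Fintype.sum_sigma]
    rw [Finset.sum_eq_single k]
    · refine Finset.sum_congr rfl fun c' _ => ?_
      rw [blockDiagonal'_apply_eq]
    · intro k' _ hk'
      refine Finset.sum_eq_zero fun c' _ => ?_
      rw [blockDiagonal'_apply_ne _ _ _ hk', mul_zero]
    · intro h; exact absurd (Finset.mem_univ _) h
  ext i ⟨k, c⟩
  rw [key]
  rcases i with i | i
  · simp only [blk, Matrix.of_apply, Sum.elim_inl, Matrix.mul_apply, Fintype.sum_sum_type,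
      fromBlocks_apply₁₁, fromBlocks_apply₁₂, Matrix.zero_apply, zero_mul, Sum.elim_inr,
      Finset.sum_const_zero, add_zero]
  · simp only [blk, Matrix.of_apply, Sum.elim_inl, Matrix.mul_apply, Fintype.sum_sum_type,
      fromBlocks_apply₂₁, fromBlocks_apply₂₂, Matrix.zero_apply, zero_mul, Sum.elim_inr,
      Finset.sum_const_zero, zero_add]

theorem fromBlocks_mem_unitary {m₁ m₂ : Type} [Fintype m₁] [Fintype m₂] [DecidableEq m₁]
    [DecidableEq m₂] (U₁ : unitaryGroup m₁ ℂ) (U₂ : unitaryGroup m₂ ℂ) :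
    fromBlocks U₁.1 0 0 U₂.1 ∈ unitaryGroup (m₁ ⊕ m₂) ℂ := by
  rw [mem_unitaryGroup_iff, star_eq_conjTranspose, fromBlocks_conjTranspose,
    fromBlocks_multiply]
  have h1 : U₁.1 * U₁.1ᴴ = 1 := by
    have := mem_unitaryGroup_iff.1 U₁.2
    rwa [star_eq_conjTranspose] at this
  have h2 : U₂.1 * U₂.1ᴴ = 1 := by
    have := mem_unitaryGroup_iff.1 U₂.2
    rwa [star_eq_conjTranspose] at this
  simp [h1, h2, fromBlocks_one]

theorem blockDiagonal'_mem_unitary {N : ℕ} {n : Fin N → Type}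
    [∀ k, Fintype (n k)] [∀ k, DecidableEq (n k)] (V : ∀ k, unitaryGroup (n k) ℂ) :
    blockDiagonal' (fun k => (V k).1) ∈ unitaryGroup (Σ k, n k) ℂ := by
  rw [mem_unitaryGroup_iff, star_eq_conjTranspose, blockDiagonal'_conjTranspose,
    ← blockDiagonal'_mul]
  have h1 : (fun k => (V k).1 * (V k).1ᴴ) = fun k => (1 : Matrix (n k) (n k) ℂ) := by
    funext k
    have := mem_unitaryGroup_iff.1 (V k).2
    rwa [star_eq_conjTranspose] at this
  rw [h1]
  exact blockDiagonal'_one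

theorem blk_blockDiagonal' {N : ℕ} {ι : Type} [DecidableEq ι] {m₁ m₂ : ι → Type}
    {n : Fin N → ι → Type}
    (A : ∀ k i, Matrix (m₁ i) (n k i) ℂ) (B : ∀ k i, Matrix (m₂ i) (n k i) ℂ) :
    blk (fun k => blockDiagonal' (A k)) (fun k => blockDiagonal' (B k)) =
      (blockDiagonal' (fun i => blk (fun k => A k i) (fun k => B k i))).submatrix
        (Equiv.sigmaSumDistrib m₁ m₂).symm (sigmaSwap n) := by
  ext r ⟨k, i, c⟩
  rcases r with ⟨j, r⟩ | ⟨j, r⟩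
  · change blockDiagonal' (A k) ⟨j, r⟩ ⟨i, c⟩ =
      blockDiagonal' (fun i => blk (fun k => A k i) (fun k => B k i)) ⟨j, Sum.inl r⟩ ⟨i, ⟨k, c⟩⟩
    by_cases h : j = i
    · subst h
      rw [blockDiagonal'_apply_eq, blockDiagonal'_apply_eq]
      rfl
    · rw [blockDiagonal'_apply_ne _ _ _ h, blockDiagonal'_apply_ne _ _ _ h]
  · change blockDiagonal' (B k) ⟨j, r⟩ ⟨i, c⟩ =
      blockDiagonal' (fun i => blk (fun k => A k i) (fun k => B k i)) ⟨j, Sum.inr r⟩ ⟨i, ⟨k, c⟩⟩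
    by_cases h : j = i
    · subst h
      rw [blockDiagonal'_apply_eq, blockDiagonal'_apply_eq]
      rfl
    · rw [blockDiagonal'_apply_ne _ _ _ h, blockDiagonal'_apply_ne _ _ _ h]

theorem pw_blk_dirsum {N : ℕ} {ι : Type} [Fintype ι] [DecidableEq ι] {m₁ m₂ : ι → Type}
    {n : Fin N → ι → Type} [∀ i, Fintype (m₁ i)] [∀ i, DecidableEq (m₁ i)] [∀ i, Fintype (m₂ i)]
    [∀ i, DecidableEq (m₂ i)] [∀ k i, Fintype (n k i)] [∀ k i, DecidableEq (n k i)] (p : ℝ)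
    (A : ∀ k i, Matrix (m₁ i) (n k i) ℂ) (B : ∀ k i, Matrix (m₂ i) (n k i) ℂ)
    (U₁ : unitaryGroup (Σ i, m₁ i) ℂ) (U₂ : unitaryGroup (Σ i, m₂ i) ℂ)
    (V : ∀ k, unitaryGroup (Σ i, n k i) ℂ) :
    pw p (blk
        (fun k => U₁.1 * blockDiagonal' (A k) * (V k).1)
        (fun k => U₂.1 * blockDiagonal' (B k) * (V k).1)) =
      ∑ i, pw p (blk (fun k => A k i) (fun k => B k i)) := by
  rw [blk_mul_mul]
  have h := pw_unitary p (blk (fun k => blockDiagonal' (A k)) (fun k => blockDiagonal' (B k)))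
    ⟨_, fromBlocks_mem_unitary U₁ U₂⟩ ⟨_, blockDiagonal'_mem_unitary V⟩
  simp only at h
  rw [h, blk_blockDiagonal', pw_submatrix, pw_blockDiagonal']

end Pool.Agent.LibSch
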