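import Pool.Agent.LibSch.Defs

open Matrix Set
open scoped ComplexOrder

namespace Pool.Agent.LibSch

theorem maj_sum_le {n : Type} (t : Finset n) (s : ℝ) (hs : 0 < s) (hs1 : s ≤ 1) (σ : n → ℝ)
    (h0 : ∀ j, 0 ≤ σ j) : (∑ j ∈ t, σ j) ^ s ≤ ∑ j ∈ t, σ j ^ s := by
  classical
  induction t using Finset.induction_on with
  | empty => simp [Real.zero_rpow hs.ne']
  | insert a t ha ih =>
    rw [Finset.sum_insert ha, Finset.sum_insert ha]
    refine (Real.rpow_add_le_add_rpow (h0 a) (Finset.sum_nonneg fun j _ => h0 j) hs.le hs1).trans ?_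
    gcongr

theorem maj_sum_ge {n : Type} (t : Finset n) (s : ℝ) (hs : 1 ≤ s) (σ : n → ℝ)
    (h0 : ∀ j, 0 ≤ σ j) : ∑ j ∈ t, σ j ^ s ≤ (∑ j ∈ t, σ j) ^ s := by
  classical
  induction t using Finset.induction_on with
  | empty => simp [Real.zero_rpow (by positivity : s ≠ 0)]
  | insert a t ha ih =>
    rw [Finset.sum_insert ha, Finset.sum_insert ha]
    refine le_trans ?_ (Real.add_rpow_le_rpow_add (h0 a) (Finset.sum_nonneg fun j _ => h0 j) hs)
    gcongr

theorem maj_param {l₁ l₂ m : ℝ} (h12 : l₂ ≤ l₁) (hm1 : l₂ ≤ m) (hm2 : m ≤ l₁) :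
    ∃ t : ℝ, 0 ≤ t ∧ t ≤ 1 ∧ t * l₁ + (1 - t) * l₂ = m ∧
      (1 - t) * l₁ + t * l₂ = l₁ + l₂ - m := by
  rcases eq_or_lt_of_le h12 with h | h
  · refine ⟨0, le_rfl, zero_le_one, ?_, ?_⟩ <;> linarith
  · have hd : 0 < l₁ - l₂ := by linarith
    refine ⟨(m - l₂) / (l₁ - l₂), div_nonneg (by linarith) hd.le,
      (div_le_one hd).2 (by linarith), ?_, ?_⟩
    · field_simp
      ring
    · field_simp
      ring

theorem maj_le {n : Type} [Fintype n] (s : ℝ) (hs : 0 < s) (hs1 : s ≤ 1) (σ : n → ℝ)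
    (l₁ l₂ : ℝ) (h0 : ∀ j, 0 ≤ σ j) (h1 : ∀ j, σ j ≤ l₁) (h2 : 0 ≤ l₂) (h12 : l₂ ≤ l₁)
    (hsum : ∑ j, σ j = l₁ + l₂) : l₁ ^ s + l₂ ^ s ≤ ∑ j, σ j ^ s := by
  classical
  rcases isEmpty_or_nonempty n with hn | hn
  · have h3 : l₁ + l₂ = 0 := by rw [← hsum]; simp
    have h4 : l₁ = 0 := by linarith
    have h5 : l₂ = 0 := by linarith
    rw [h4, h5]
    simp [Real.zero_rpow hs.ne']
  · obtain ⟨i, -, hi⟩ := Finset.exists_max_image Finset.univ σ Finset.univ_nonempty
    have hi' : ∀ j, σ j ≤ σ i := fun j => hi j (Finset.mem_univ j)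
    have hl1 : 0 ≤ l₁ := h2.trans h12
    rcases lt_or_ge (σ i) l₂ with hm | hm
    · have hl2 : 0 < l₂ := (h0 i).trans_lt hm
      have hl1' : 0 < l₁ := hl2.trans_le h12
      have h3 : ∀ j, σ j * l₂ ^ (s - 1) ≤ σ j ^ s := by
        intro j
        rcases eq_or_lt_of_le (h0 j) with h | h
        · rw [← h, zero_mul]
          exact Real.rpow_nonneg le_rfl _
        · have h4 : σ j ^ s = σ j * σ j ^ (s - 1) := by
            rw [Real.rpow_sub_one h.ne']
            field_simp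
          rw [h4]
          apply mul_le_mul_of_nonneg_left _ h.le
          exact Real.rpow_le_rpow_of_nonpos h ((hi' j).trans hm.le) (by linarith)
      have h5 : l₁ ^ s = l₁ * l₁ ^ (s - 1) := by
        rw [Real.rpow_sub_one hl1'.ne']
        field_simp
      have h6 : l₂ ^ s = l₂ * l₂ ^ (s - 1) := by
        rw [Real.rpow_sub_one hl2.ne']
        field_simp
      have h7 : l₁ ^ (s - 1) ≤ l₂ ^ (s - 1) := Real.rpow_le_rpow_of_nonpos hl2 h12 (by linarith)
      calc l₁ ^ s + l₂ ^ s ≤ (l₁ + l₂) * l₂ ^ (s - 1) := by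
            rw [h5, h6, add_mul]
            gcongr
        _ = ∑ j, σ j * l₂ ^ (s - 1) := by rw [← hsum, Finset.sum_mul]
        _ ≤ ∑ j, σ j ^ s := Finset.sum_le_sum fun j _ => h3 j
    · have h3 : ∑ j ∈ Finset.univ.erase i, σ j = l₁ + l₂ - σ i := by
        rw [← hsum, ← Finset.add_sum_erase _ _ (Finset.mem_univ i)]
        ring
      have h4 := maj_sum_le (Finset.univ.erase i) s hs hs1 σ h0
      rw [← Finset.add_sum_erase _ _ (Finset.mem_univ i)]
      refine le_trans ?_ (add_le_add_right h4 _)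
      rw [h3]
      obtain ⟨t, ht0, ht1, e1, e2⟩ := maj_param h12 hm (h1 i)
      have hc := (Real.concaveOn_rpow hs.le hs1).2
      have c1 := hc (x := l₁) (y := l₂) hl1 h2 ht0 (by linarith : 0 ≤ 1 - t) (by ring)
      have c2 := hc (x := l₁) (y := l₂) hl1 h2 (by linarith : 0 ≤ 1 - t) ht0 (by ring)
      simp only [smul_eq_mul] at c1 c2
      rw [e1] at c1
      rw [e2] at c2
      linarith

theorem maj_ge {n : Type} [Fintype n] (s : ℝ) (hs : 1 ≤ s) (σ : n → ℝ)
    (l₁ l₂ : ℝ) (h0 : ∀ j, 0 ≤ σ j) (h1 : ∀ j, σ j ≤ l₁) (h2 : 0 ≤ l₂) (h12 : l₂ ≤ l₁)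
    (hsum : ∑ j, σ j = l₁ + l₂) : ∑ j, σ j ^ s ≤ l₁ ^ s + l₂ ^ s := by
  classical
  have hs0 : 0 < s := by linarith
  rcases isEmpty_or_nonempty n with hn | hn
  · simp only [Finset.univ_eq_empty, Finset.sum_empty]
    have hl1 : 0 ≤ l₁ := h2.trans h12
    positivity
  · obtain ⟨i, -, hi⟩ := Finset.exists_max_image Finset.univ σ Finset.univ_nonempty
    have hi' : ∀ j, σ j ≤ σ i := fun j => hi j (Finset.mem_univ j)
    have hl1 : 0 ≤ l₁ := h2.trans h12
    rcases lt_or_ge (σ i) l₂ with hm | hm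
    · have hl2 : 0 < l₂ := (h0 i).trans_lt hm
      have hl1' : 0 < l₁ := hl2.trans_le h12
      have h3 : ∀ j, σ j ^ s ≤ σ j * l₂ ^ (s - 1) := by
        intro j
        rcases eq_or_lt_of_le (h0 j) with h | h
        · rw [← h, zero_mul, Real.zero_rpow hs0.ne']
        · have h4 : σ j ^ s = σ j * σ j ^ (s - 1) := by
            rw [Real.rpow_sub_one h.ne']
            field_simp
          rw [h4]
          apply mul_le_mul_of_nonneg_left _ h.le
          exact Real.rpow_le_rpow h.le ((hi' j).trans hm.le) (by linarith)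
      have h5 : l₁ ^ s = l₁ * l₁ ^ (s - 1) := by
        rw [Real.rpow_sub_one hl1'.ne']
        field_simp
      have h6 : l₂ ^ s = l₂ * l₂ ^ (s - 1) := by
        rw [Real.rpow_sub_one hl2.ne']
        field_simp
      have h7 : l₂ ^ (s - 1) ≤ l₁ ^ (s - 1) := Real.rpow_le_rpow hl2.le h12 (by linarith)
      calc ∑ j, σ j ^ s ≤ ∑ j, σ j * l₂ ^ (s - 1) := Finset.sum_le_sum fun j _ => h3 j
        _ = (l₁ + l₂) * l₂ ^ (s - 1) := by rw [← hsum, Finset.sum_mul]
        _ ≤ l₁ ^ s + l₂ ^ s := by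
            rw [h5, h6, add_mul]
            gcongr
    · have h3 : ∑ j ∈ Finset.univ.erase i, σ j = l₁ + l₂ - σ i := by
        rw [← hsum, ← Finset.add_sum_erase _ _ (Finset.mem_univ i)]
        ring
      have h4 := maj_sum_ge (Finset.univ.erase i) s hs σ h0
      rw [← Finset.add_sum_erase _ _ (Finset.mem_univ i)]
      refine (add_le_add_right h4 _).trans ?_
      rw [h3]
      obtain ⟨t, ht0, ht1, e1, e2⟩ := maj_param h12 hm (h1 i)
      have hc := (convexOn_rpow hs).2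
      have c1 := hc (x := l₁) (y := l₂) hl1 h2 ht0 (by linarith : 0 ≤ 1 - t) (by ring)
      have c2 := hc (x := l₁) (y := l₂) hl1 h2 (by linarith : 0 ≤ 1 - t) ht0 (by ring)
      simp only [smul_eq_mul] at c1 c2
      rw [e1] at c1
      rw [e2] at c2
      linarith

end Pool.Agent.LibSch
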