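import Pool.Agent.LibSch.Defs

open Matrix
open scoped ComplexOrder

namespace Pool.Agent.LibSch

/-- Two numbers with the sum and the product of the eigenvalues. -/
theorem two_aux (s X Y W a b : ℝ) (h1 : a + b = X + Y) (h2 : a * b = X * Y - W ^ 2) :
    a ^ s + b ^ s = FF s X Y W := by
  have h3 : (X - Y) ^ 2 + 4 * W ^ 2 = (a - b) ^ 2 := by
    have h4 : (a - b) ^ 2 = (a + b) ^ 2 - 4 * (a * b) := by ring
    rw [h4, h1, h2]
    ring
  rw [FF, lamP, lamM, h3, Real.sqrt_sq_eq_abs]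
  rcases le_total a b with h | h
  · rw [abs_of_nonpos (sub_nonpos.2 h)]
    have e1 : (X + Y + -(a - b)) / 2 = b := by rw [← h1]; ring
    have e2 : (X + Y - -(a - b)) / 2 = a := by rw [← h1]; ring
    rw [e1, e2, add_comm]
  · rw [abs_of_nonneg (sub_nonneg.2 h)]
    have e1 : (X + Y + (a - b)) / 2 = a := by rw [← h1]; ring
    have e2 : (X + Y - (a - b)) / 2 = b := by rw [← h1]; ring
    rw [e1, e2]

/-- The conjugate transpose of a real matrix with two rows. -/
theorem two_pw_conj {N : ℕ} (p : ℝ) (x y : Fin N → ℝ) :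
    pw p (Matrix.of fun (i : Fin 2) (k : Fin N) => ((![x k, y k] i : ℝ) : ℂ))ᴴ =
      FF (p / 2) (∑ k, x k ^ 2) (∑ k, y k ^ 2) (∑ k, x k * y k) := by
  set C : Matrix (Fin 2) (Fin N) ℂ :=
    Matrix.of fun (i : Fin 2) (k : Fin N) => ((![x k, y k] i : ℝ) : ℂ) with hC
  have hH := isHermitian_conjTranspose_mul_self Cᴴ
  have h00 : (Cᴴᴴ * Cᴴ) 0 0 = ((∑ k, x k ^ 2 : ℝ) : ℂ) := by
    rw [conjTranspose_conjTranspose, mul_apply]
    simp [hC, sq]
  have h11 : (Cᴴᴴ * Cᴴ) 1 1 = ((∑ k, y k ^ 2 : ℝ) : ℂ) := by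
    rw [conjTranspose_conjTranspose, mul_apply]
    simp [hC, sq]
  have h01 : (Cᴴᴴ * Cᴴ) 0 1 = ((∑ k, x k * y k : ℝ) : ℂ) := by
    rw [conjTranspose_conjTranspose, mul_apply]
    simp [hC]
  have h10 : (Cᴴᴴ * Cᴴ) 1 0 = ((∑ k, x k * y k : ℝ) : ℂ) := by
    rw [conjTranspose_conjTranspose, mul_apply]
    simp [hC, mul_comm]
  have htr := hH.trace_eq_sum_eigenvalues
  have hdet := hH.det_eq_prod_eigenvalues
  rw [trace_fin_two, Fin.sum_univ_two, h00, h11] at htr
  rw [det_fin_two, Fin.prod_univ_two, h00, h11, h01, h10] at hdet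
  rw [pw, Fin.sum_univ_two]
  apply two_aux
  · apply Complex.ofReal_injective
    rw [Complex.ofReal_add, Complex.ofReal_add]
    exact htr.symm
  · apply Complex.ofReal_injective
    rw [Complex.ofReal_mul, Complex.ofReal_sub, Complex.ofReal_mul, sq, Complex.ofReal_mul]
    exact hdet.symm

section conj

variable {m n : Type} [Fintype m] [Fintype n] [DecidableEq n]

theorem two_pw_roots (p : ℝ) (M : Matrix m n ℂ) :
    pw p M = ((Mᴴ * M).charpoly.roots.map fun z : ℂ => z.re ^ (p / 2)).sum := by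
  rw [(isHermitian_conjTranspose_mul_self M).roots_charpoly_eq_eigenvalues, Multiset.map_map, pw]
  rfl

/-- `s = p/2 > 0`; the eigenvalues of `MᴴM` and `MMᴴ` agree up to zeros -/
theorem two_conjTranspose [DecidableEq m] (p : ℝ) (hp : 0 < p) (M : Matrix m n ℂ) :
    pw p Mᴴ = pw p M := by
  have h0 : (0 : ℂ).re ^ (p / 2) = 0 := by
    rw [Complex.zero_re, Real.zero_rpow (by positivity)]
  have key : ∀ (a : ℕ) (q : Polynomial ℂ), q ≠ 0 →
      ((Polynomial.X ^ a * q).roots.map fun z : ℂ => z.re ^ (p / 2)).sum =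
        (q.roots.map fun z : ℂ => z.re ^ (p / 2)).sum := by
    intro a q hq
    rw [Polynomial.roots_mul (mul_ne_zero (pow_ne_zero _ Polynomial.X_ne_zero) hq),
      Polynomial.roots_X_pow, Multiset.map_add, Multiset.sum_add, Multiset.map_nsmul,
      Multiset.map_singleton, Multiset.sum_nsmul, Multiset.sum_singleton, h0, smul_zero, zero_add]
  have h1 := charpoly_mul_comm' M Mᴴ
  rw [two_pw_roots, two_pw_roots, conjTranspose_conjTranspose,
    ← key (Fintype.card n) _ (charpoly_monic _).ne_zero, h1,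
    key (Fintype.card m) _ (charpoly_monic _).ne_zero]

end conj

theorem pw_two {N : ℕ} (p : ℝ) (hp : 0 < p) (x y : Fin N → ℝ) :
    pw p (Matrix.of fun (i : Fin 2) (k : Fin N) => ((![x k, y k] i : ℝ) : ℂ)) =
      FF (p / 2) (∑ k, x k ^ 2) (∑ k, y k ^ 2) (∑ k, x k * y k) := by
  rw [← two_conjTranspose p hp, two_pw_conj]

end Pool.Agent.LibSch
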