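import Pool.Agent.LibSch.PwBasic
import Pool.Agent.LibSch.Two
import Pool.Agent.LibSch.Maj

open Matrix Set
open scoped ComplexOrder

namespace Pool.Agent.LibSch

/-! Helper lemmas for T7b -/

/-- the sum of the eigenvalues of `MᴴM` -/
theorem rk_sum_eig {m n : Type} [Fintype m] [Fintype n] [DecidableEq n] (M : Matrix m n ℂ) :
    ∑ j, (isHermitian_conjTranspose_mul_self M).eigenvalues j = ∑ i, ∑ j, ‖M i j‖ ^ 2 := by
  have h := (isHermitian_conjTranspose_mul_self M).trace_eq_sum_eigenvalues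
  have h2 : (Mᴴ * M).trace = ((∑ i, ∑ j, ‖M i j‖ ^ 2 : ℝ) : ℂ) := by
    rw [Matrix.trace]
    simp only [Matrix.diag, Matrix.mul_apply, Matrix.conjTranspose_apply]
    push_cast
    rw [Finset.sum_comm]
    refine Finset.sum_congr rfl fun i _ => Finset.sum_congr rfl fun j _ => ?_
    have := RCLike.conj_mul (M i j)
    simpa using this
  rw [h2] at h
  apply Complex.ofReal_injective
  rw [Complex.ofReal_sum]
  exact h.symm

theorem rk_eig_nonneg {m n : Type} [Fintype m] [Fintype n] [DecidableEq n] (M : Matrix m n ℂ)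
    (j : n) : 0 ≤ (isHermitian_conjTranspose_mul_self M).eigenvalues j :=
  (posSemidef_conjTranspose_mul_self M).eigenvalues_nonneg j

/-- a unit vector for the eigenvalue -/
theorem rk_eig_vec {m n : Type} [Fintype m] [Fintype n] [DecidableEq n] (M : Matrix m n ℂ)
    (j : n) : ∃ v : n → ℂ, ∑ c, ‖v c‖ ^ 2 = 1 ∧
      (isHermitian_conjTranspose_mul_self M).eigenvalues j = ∑ i, ‖∑ c, M i c * v c‖ ^ 2 := by
  set hM := isHermitian_conjTranspose_mul_self M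
  refine ⟨⇑(hM.eigenvectorBasis j), ?_, ?_⟩
  · have h1 := hM.eigenvectorBasis.orthonormal.1 j
    rw [← EuclideanSpace.norm_sq_eq, h1, one_pow]
  · rw [hM.eigenvalues_eq j, ← Matrix.mulVec_mulVec, Matrix.dotProduct_mulVec,
      ← Matrix.star_mulVec]
    rw [dotProduct, map_sum]
    refine Finset.sum_congr rfl fun i _ => ?_
    set z := (M *ᵥ ⇑(hM.eigenvectorBasis j)) i with hz
    have h1 : (star (M *ᵥ ⇑(hM.eigenvectorBasis j))) i * z = ((‖z‖ ^ 2 : ℝ) : ℂ) := by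
      have := RCLike.conj_mul z
      rw [Pi.star_apply, ← hz]
      simpa using this
    rw [h1]
    have h2 : z = ∑ c, M i c * (hM.eigenvectorBasis j) c := rfl
    rw [← h2]
    exact Complex.ofReal_re _

/-- the quadratic form of `!![x, w; w, y]` is at most the larger eigenvalue -/
theorem rk_form_le (x y w P Q : ℝ) :
    P ^ 2 * x + 2 * (P * Q) * w + Q ^ 2 * y ≤ lamP x y w * (P ^ 2 + Q ^ 2) := by
  have h1 : (x - y) * (P ^ 2 - Q ^ 2) + 4 * w * (P * Q) ≤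
      √((x - y) ^ 2 + 4 * w ^ 2) * (P ^ 2 + Q ^ 2) := by
    have h2 : √((x - y) ^ 2 + 4 * w ^ 2) * (P ^ 2 + Q ^ 2) =
        √(((x - y) ^ 2 + 4 * w ^ 2) * (P ^ 2 + Q ^ 2) ^ 2) := by
      rw [Real.sqrt_mul (by positivity), Real.sqrt_sq (by positivity)]
    rw [h2]
    apply Real.le_sqrt_of_sq_le
    nlinarith [sq_nonneg ((x - y) * (2 * (P * Q)) - 2 * w * (P ^ 2 - Q ^ 2))]
  unfold lamP
  nlinarith [h1]

theorem rk_lamP_nonneg (x y w : ℝ) (hx : 0 ≤ x) (hy : 0 ≤ y) : 0 ≤ lamP x y w := by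
  unfold lamP
  positivity

/-- the operator norm of a real `2 × N` matrix -/
theorem rk_lam_bound {N : ℕ} (a b t : Fin N → ℝ) :
    (∑ k, a k * t k) ^ 2 + (∑ k, b k * t k) ^ 2 ≤
      lamP (∑ k, a k ^ 2) (∑ k, b k ^ 2) (∑ k, a k * b k) * ∑ k, t k ^ 2 := by
  set x := ∑ k, a k ^ 2 with hx
  set y := ∑ k, b k ^ 2 with hy
  set w := ∑ k, a k * b k with hw
  set P := ∑ k, a k * t k with hP
  set Q := ∑ k, b k * t k with hQ
  set T := ∑ k, t k ^ 2 with hT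
  have hx0 : 0 ≤ x := Finset.sum_nonneg fun k _ => sq_nonneg _
  have hy0 : 0 ≤ y := Finset.sum_nonneg fun k _ => sq_nonneg _
  have hT0 : 0 ≤ T := Finset.sum_nonneg fun k _ => sq_nonneg _
  have hl := rk_lamP_nonneg x y w hx0 hy0
  have h1 : P ^ 2 + Q ^ 2 = ∑ k, (P * a k + Q * b k) * t k := by
    have : ∀ k, (P * a k + Q * b k) * t k = P * (a k * t k) + Q * (b k * t k) := fun k => by ring
    simp only [this, Finset.sum_add_distrib, ← Finset.mul_sum, ← hP, ← hQ]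
    ring
  have h2 : ∑ k, (P * a k + Q * b k) ^ 2 = P ^ 2 * x + 2 * (P * Q) * w + Q ^ 2 * y := by
    have : ∀ k, (P * a k + Q * b k) ^ 2 =
        P ^ 2 * a k ^ 2 + 2 * (P * Q) * (a k * b k) + Q ^ 2 * b k ^ 2 := fun k => by ring
    simp only [this, Finset.sum_add_distrib, ← Finset.mul_sum, ← hx, ← hy, ← hw]
  have h3 : (P ^ 2 + Q ^ 2) ^ 2 ≤ (P ^ 2 * x + 2 * (P * Q) * w + Q ^ 2 * y) * T := by
    rw [h1, ← h2]
    exact Finset.sum_mul_sq_le_sq_mul_sq _ _ _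
  have h4 := rk_form_le x y w P Q
  rcases eq_or_lt_of_le (by positivity : 0 ≤ P ^ 2 + Q ^ 2) with h5 | h5
  · rw [← h5]
    positivity
  · have h6 : (P ^ 2 + Q ^ 2) * (P ^ 2 + Q ^ 2) ≤ (P ^ 2 + Q ^ 2) * (lamP x y w * T) := by
      calc (P ^ 2 + Q ^ 2) * (P ^ 2 + Q ^ 2) = (P ^ 2 + Q ^ 2) ^ 2 := by ring
        _ ≤ _ := h3
        _ ≤ (lamP x y w * (P ^ 2 + Q ^ 2)) * T := mul_le_mul_of_nonneg_right h4 hT0
        _ = _ := by ring
    exact le_of_mul_le_mul_left h6 h5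

/-- Frobenius norm bound for a row of blocks -/
theorem rk_row_bound {N : ℕ} {m : Type} {n : Fin N → Type} [Fintype m] [∀ k, Fintype (n k)]
    (A : ∀ k, Matrix m (n k) ℂ) (v : (Σ k, n k) → ℂ) :
    ∑ r, ‖∑ c : (Σ k, n k), A c.1 r c.2 * v c‖ ^ 2 ≤
      (∑ k, √(∑ i, ∑ j, ‖A k i j‖ ^ 2) * √(∑ j, ‖v ⟨k, j⟩‖ ^ 2)) ^ 2 := by
  let u : Fin N → EuclideanSpace ℂ m := fun k => WithLp.toLp 2 (fun r => ∑ j, A k r j * v ⟨k, j⟩)
  have h1 : ∑ r, ‖∑ c : (Σ k, n k), A c.1 r c.2 * v c‖ ^ 2 = ‖∑ k, u k‖ ^ 2 := by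
    rw [EuclideanSpace.norm_sq_eq]
    refine Finset.sum_congr rfl fun r _ => ?_
    rw [Fintype.sum_sigma]
    simp [u]
  rw [h1]
  refine pow_le_pow_left₀ (norm_nonneg _) ?_ 2
  refine (norm_sum_le _ _).trans (Finset.sum_le_sum fun k _ => ?_)
  rw [← Real.sqrt_mul (by positivity)]
  apply Real.le_sqrt_of_sq_le
  rw [EuclideanSpace.norm_sq_eq, Finset.sum_mul]
  refine Finset.sum_le_sum fun r _ => ?_
  have h2 : ‖∑ j, A k r j * v ⟨k, j⟩‖ ≤ ∑ j, ‖A k r j‖ * ‖v ⟨k, j⟩‖ := by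
    refine (norm_sum_le _ _).trans (le_of_eq ?_)
    exact Finset.sum_congr rfl fun j _ => norm_mul _ _
  calc ‖(u k) r‖ ^ 2 = ‖∑ j, A k r j * v ⟨k, j⟩‖ ^ 2 := rfl
    _ ≤ (∑ j, ‖A k r j‖ * ‖v ⟨k, j⟩‖) ^ 2 := pow_le_pow_left₀ (norm_nonneg _) h2 2
    _ ≤ _ := Finset.sum_mul_sq_le_sq_mul_sq _ _ _

/-- powers of a nonnegative function with at most one nonzero value -/
theorem rk_sum_rpow {n : Type} [Fintype n] (e : n → ℝ) (r : ℝ) (hr : r ≠ 0)
    (h : ∀ i j, e i ≠ 0 → e j ≠ 0 → i = j) : ∑ j, e j ^ r = (∑ j, e j) ^ r := by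
  by_cases h0 : ∀ j, e j = 0
  · simp [h0, Real.zero_rpow hr]
  · push Not at h0
    obtain ⟨i, hi⟩ := h0
    have h1 : ∀ j, j ≠ i → e j = 0 := by
      intro j hj
      by_contra hc
      exact hj (h j i hc hi)
    rw [Fintype.sum_eq_single i h1, Fintype.sum_eq_single i]
    intro j hj
    rw [h1 j hj, Real.zero_rpow hr]

/-! ## T7b (file RankOne.lean) -/

theorem sn_of_rank_le_one {m n : Type} [Fintype m] [Fintype n] [DecidableEq n] (p : ℝ)
    (hp : 0 < p) (M : Matrix m n ℂ) (h : M.rank ≤ 1) :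
    sn p M = √(∑ i, ∑ j, ‖M i j‖ ^ 2) := by
  have h1 := (isHermitian_conjTranspose_mul_self M).rank_eq_card_non_zero_eigs
  rw [rank_conjTranspose_mul_self] at h1
  rw [h1, Fintype.card_le_one_iff] at h
  have h2 : pw p M = (∑ i, ∑ j, ‖M i j‖ ^ 2) ^ (p / 2) := by
    unfold pw
    rw [rk_sum_rpow _ _ (by positivity), rk_sum_eig]
    intro i j hi hj
    exact congrArg Subtype.val (h ⟨i, hi⟩ ⟨j, hj⟩)
  have h3 : (0 : ℝ) ≤ ∑ i, ∑ j, ‖M i j‖ ^ 2 := by positivity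
  rw [sn, h2, ← Real.rpow_mul h3, Real.sqrt_eq_rpow]
  congr 1
  field_simp

theorem rk_eig_le {N : ℕ} {m₁ m₂ : Type} {n : Fin N → Type} [Fintype m₁] [Fintype m₂]
    [∀ k, Fintype (n k)] [∀ k, DecidableEq (n k)]
    (A : ∀ k, Matrix m₁ (n k) ℂ) (B : ∀ k, Matrix m₂ (n k) ℂ) (c : Σ k, n k) :
    (isHermitian_conjTranspose_mul_self (blk A B)).eigenvalues c ≤
      lamP (∑ k, √(∑ i, ∑ j, ‖A k i j‖ ^ 2) ^ 2) (∑ k, √(∑ i, ∑ j, ‖B k i j‖ ^ 2) ^ 2)
        (∑ k, √(∑ i, ∑ j, ‖A k i j‖ ^ 2) * √(∑ i, ∑ j, ‖B k i j‖ ^ 2)) := by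
  obtain ⟨v, hv, he⟩ := rk_eig_vec (blk A B) c
  rw [he, Fintype.sum_sum_type]
  have h1 := rk_row_bound A v
  have h2 := rk_row_bound B v
  have h3 := rk_lam_bound (fun k => √(∑ i, ∑ j, ‖A k i j‖ ^ 2))
    (fun k => √(∑ i, ∑ j, ‖B k i j‖ ^ 2)) (fun k => √(∑ j, ‖v ⟨k, j⟩‖ ^ 2))
  have h4 : ∑ k, √(∑ j, ‖v ⟨k, j⟩‖ ^ 2) ^ 2 = 1 := by
    rw [← hv, Fintype.sum_sigma]
    exact Finset.sum_congr rfl fun k _ => Real.sq_sqrt (by positivity)
  rw [h4, mul_one] at h3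
  exact (add_le_add h1 h2).trans h3

theorem holds_rank_one {N : ℕ} {m₁ m₂ : Type} {n : Fin N → Type} [Fintype m₁] [Fintype m₂]
    [∀ k, Fintype (n k)] [∀ k, DecidableEq (n k)] (p : ℝ)
    (A : ∀ k, Matrix m₁ (n k) ℂ) (B : ∀ k, Matrix m₂ (n k) ℂ)
    (hA : ∀ k, (A k).rank ≤ 1) (hB : ∀ k, (B k).rank ≤ 1) : Holds p A B := by
  set a : Fin N → ℝ := fun k => √(∑ i, ∑ j, ‖A k i j‖ ^ 2) with ha
  set b : Fin N → ℝ := fun k => √(∑ i, ∑ j, ‖B k i j‖ ^ 2) with hb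
  set x := ∑ k, a k ^ 2 with hx
  set y := ∑ k, b k ^ 2 with hy
  set w := ∑ k, a k * b k with hw
  have hx0 : 0 ≤ x := Finset.sum_nonneg fun k _ => sq_nonneg _
  have hy0 : 0 ≤ y := Finset.sum_nonneg fun k _ => sq_nonneg _
  have hwxy : w ^ 2 ≤ x * y := Finset.sum_mul_sq_le_sq_mul_sq _ _ _
  have hcomp : 0 < p → pw p (comp p A B) = lamP x y w ^ (p / 2) + lamM x y w ^ (p / 2) := by
    intro hp
    have h1 : comp p A B =
        Matrix.of fun (i : Fin 2) (k : Fin N) => ((![a k, b k] i : ℝ) : ℂ) := by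
      unfold comp
      ext i k
      simp only [Matrix.of_apply]
      rw [sn_of_rank_le_one p hp (A k) (hA k), sn_of_rank_le_one p hp (B k) (hB k)]
    rw [h1, pw_two p hp]
    rfl
  have hσ0 := rk_eig_nonneg (blk A B)
  have hσ1 := rk_eig_le A B
  have hM0 : 0 ≤ lamM x y w := by
    unfold lamM
    have : √((x - y) ^ 2 + 4 * w ^ 2) ≤ x + y := by
      rw [Real.sqrt_le_left (by positivity)]
      nlinarith
    linarith
  have hMP : lamM x y w ≤ lamP x y w := by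
    unfold lamM lamP
    have := Real.sqrt_nonneg ((x - y) ^ 2 + 4 * w ^ 2)
    linarith
  have hsum : ∑ c, (isHermitian_conjTranspose_mul_self (blk A B)).eigenvalues c =
      lamP x y w + lamM x y w := by
    rw [rk_sum_eig, Fintype.sum_sum_type]
    have h1 : lamP x y w + lamM x y w = x + y := by unfold lamP lamM; ring
    rw [h1]
    congr 1
    · rw [hx, Finset.sum_comm, Fintype.sum_sigma]
      refine Finset.sum_congr rfl fun k _ => ?_
      rw [ha, Real.sq_sqrt (by positivity), Finset.sum_comm]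
      rfl
    · rw [hy, Finset.sum_comm, Fintype.sum_sigma]
      refine Finset.sum_congr rfl fun k _ => ?_
      rw [hb, Real.sq_sqrt (by positivity), Finset.sum_comm]
      rfl
  constructor
  · intro hp1 hp2
    have hp : 0 < p := by linarith
    unfold sn
    refine Real.rpow_le_rpow (pw_nonneg _ _) ?_ (by positivity)
    rw [hcomp hp]
    exact maj_le (p / 2) (by linarith) (by linarith) _ _ _ hσ0 hσ1 hM0 hMP hsum
  · intro hp2
    have hp : 0 < p := by linarith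
    unfold sn
    refine Real.rpow_le_rpow (pw_nonneg _ _) ?_ (by positivity)
    rw [hcomp hp]
    exact maj_ge (p / 2) (by linarith) _ _ _ hσ0 hσ1 hM0 hMP hsum

end Pool.Agent.LibSch
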