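import Pool.Agent.LibSch.Closure
import Pool.Agent.LibSch.DirSum
import Pool.Agent.LibSch.RankOne

open Matrix Set
open scoped ComplexOrder

namespace Pool.Agent.LibSch

section

variable {N : ℕ} {m₁ m₂ : Type} {n : Fin N → Type} [Fintype m₁] [Fintype m₂]
  [∀ k, Fintype (n k)] [∀ k, DecidableEq (n k)]

theorem sn_nonneg {m n : Type} [Fintype m] [Fintype n] [DecidableEq n] (p : ℝ)
    (M : Matrix m n ℂ) : 0 ≤ sn p M := Real.rpow_nonneg (pw_nonneg p M) _

/-- the compression, in terms of `PhiE` -/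
theorem pw_comp (p : ℝ) (hp : 0 < p) (A : ∀ k, Matrix m₁ (n k) ℂ) (B : ∀ k, Matrix m₂ (n k) ℂ) :
    pw p (comp p A B) = PhiE 0 (p / 2) (fun k => pw p (A k)) (fun k => pw p (B k)) := by
  have hp2 : 2 * (p / 2) = p := by ring
  have h1 : ∀ x : ℝ, 0 ≤ x → x ^ (1 / (p / 2)) = (x ^ (1 / p)) ^ 2 := by
    intro x hx
    have := rpow_half_sq (p / 2) x (by linarith) hx
    rw [hp2] at this
    exact this.symm
  rw [comp, pw_two p hp, PhiE, hp2]
  congr 1
  · rw [zero_add]
    exact Finset.sum_congr rfl fun k _ => (h1 _ (pw_nonneg p _)).symm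
  · rw [zero_add]
    exact Finset.sum_congr rfl fun k _ => (h1 _ (pw_nonneg p _)).symm

theorem holds_iff (p : ℝ) (hp : 1 ≤ p) (A : ∀ k, Matrix m₁ (n k) ℂ)
    (B : ∀ k, Matrix m₂ (n k) ℂ) :
    Holds p A B ↔ (p ≤ 2 → pw p (comp p A B) ≤ pw p (blk A B)) ∧
      (2 ≤ p → pw p (blk A B) ≤ pw p (comp p A B)) := by
  have h0 : 0 < 1 / p := by positivity
  unfold Holds sn
  rw [Real.rpow_le_rpow_iff (pw_nonneg p _) (pw_nonneg p _) h0,
    Real.rpow_le_rpow_iff (pw_nonneg p _) (pw_nonneg p _) h0]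
  constructor
  · rintro ⟨h1, h2⟩
    exact ⟨h1 hp, h2⟩
  · rintro ⟨h1, h2⟩
    exact ⟨fun _ => h1, h2⟩

theorem holds_submatrix {m₁' m₂' : Type} {n' : Fin N → Type} [Fintype m₁'] [Fintype m₂']
    [∀ k, Fintype (n' k)] [∀ k, DecidableEq (n' k)] (p : ℝ)
    (A : ∀ k, Matrix m₁ (n k) ℂ) (B : ∀ k, Matrix m₂ (n k) ℂ) (e₁ : m₁' ≃ m₁) (e₂ : m₂' ≃ m₂)
    (f : ∀ k, n' k ≃ n k) (h : Holds p A B) :
    Holds p (fun k => (A k).submatrix e₁ (f k)) (fun k => (B k).submatrix e₂ (f k)) := by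
  have h1 : blk (fun k => (A k).submatrix e₁ (f k)) (fun k => (B k).submatrix e₂ (f k)) =
      (blk A B).submatrix (Equiv.sumCongr e₁ e₂) (Equiv.sigmaCongrRight f) := by
    ext i c
    rcases i with i | i <;> rfl
  have h2 : comp p (fun k => (A k).submatrix e₁ (f k)) (fun k => (B k).submatrix e₂ (f k)) =
      comp p A B := by
    unfold comp sn
    simp_rw [pw_submatrix]
  unfold Holds at h ⊢
  rw [h1, h2, sn, sn, pw_submatrix]
  exact h

end

theorem main {N : ℕ} {ι : Type} [Fintype ι] [DecidableEq ι] {m₁ m₂ : ι → Type}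
    {n : Fin N → ι → Type} [∀ i, Fintype (m₁ i)] [∀ i, DecidableEq (m₁ i)] [∀ i, Fintype (m₂ i)]
    [∀ i, DecidableEq (m₂ i)] [∀ k i, Fintype (n k i)] [∀ k i, DecidableEq (n k i)] (p : ℝ)
    (hp : 1 ≤ p)
    (A : ∀ k i, Matrix (m₁ i) (n k i) ℂ) (B : ∀ k i, Matrix (m₂ i) (n k i) ℂ)
    (U₁ : unitaryGroup (Σ i, m₁ i) ℂ) (U₂ : unitaryGroup (Σ i, m₂ i) ℂ)
    (V : ∀ k, unitaryGroup (Σ i, n k i) ℂ)
    (h : ∀ i, (∀ k, (A k i).rank ≤ 1 ∧ (B k i).rank ≤ 1) ∨
      Holds p (fun k => A k i) (fun k => B k i)) :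
    Holds p
      (fun k => U₁.1 * blockDiagonal' (A k) * (V k).1)
      (fun k => U₂.1 * blockDiagonal' (B k) * (V k).1) := by
  have hp0 : 0 < p := by linarith
  have hi : ∀ i, Holds p (fun k => A k i) (fun k => B k i) := by
    intro i
    rcases h i with h | h
    · exact holds_rank_one p _ _ (fun k => (h k).1) (fun k => (h k).2)
    · exact h
  simp_rw [holds_iff p hp] at hi
  rw [holds_iff p hp, pw_blk_dirsum, pw_comp p hp0]
  have e1 : (fun k => pw p (U₁.1 * blockDiagonal' (A k) * (V k).1)) =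
      fun k => ∑ i, pw p (A k i) := by
    funext k
    rw [pw_unitary, pw_blockDiagonal']
  have e2 : (fun k => pw p (U₂.1 * blockDiagonal' (B k) * (V k).1)) =
      fun k => ∑ i, pw p (B k i) := by
    funext k
    rw [pw_unitary, pw_blockDiagonal']
  rw [e1, e2]
  constructor
  · intro hp2
    refine (Phi_subadd (p / 2) (by linarith) (by linarith) (fun i k => pw p (A k i))
      (fun i k => pw p (B k i)) (fun i k => pw_nonneg _ _) (fun i k => pw_nonneg _ _)).trans ?_
    refine Finset.sum_le_sum fun i _ => ?_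
    have := (hi i).1 hp2
    rwa [pw_comp p hp0] at this
  · intro hp2
    refine le_trans ?_ (Phi_superadd (p / 2) (by linarith) (fun i k => pw p (A k i))
      (fun i k => pw p (B k i)) (fun i k => pw_nonneg _ _) (fun i k => pw_nonneg _ _))
    refine Finset.sum_le_sum fun i _ => ?_
    have := (hi i).2 hp2
    rwa [pw_comp p hp0] at this

theorem main_diag (p : ℝ) (hp : 1 ≤ p) (N d : ℕ) (a b : Fin N → Fin d → ℂ) :
    Holds p (fun k => diagonal (a k)) (fun k => diagonal (b k)) := by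
  have h := main (N := N) (ι := Fin d) (m₁ := fun _ => Unit) (m₂ := fun _ => Unit)
    (n := fun _ _ => Unit) p hp (fun k i => Matrix.of fun _ _ => a k i)
    (fun k i => Matrix.of fun _ _ => b k i) 1 1 (fun _ => 1) (by
      intro i
      left
      intro k
      constructor
      · exact (Matrix.rank_le_card_width _).trans (by simp)
      · exact (Matrix.rank_le_card_width _).trans (by simp))
  set e : Fin d ≃ (Σ _ : Fin d, Unit) := (Equiv.sigmaPUnit (Fin d)).symm with he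
  have h2 := holds_submatrix p _ _ e e (fun _ => e) h
  convert h2 using 2 with k
  · ext i j
    simp [blockDiagonal'_apply, diagonal_apply, he]
  · ext i j
    simp [blockDiagonal'_apply, diagonal_apply, he]

end Pool.Agent.LibSch
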