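import Pool.Agent.LibSch.Defs

open Matrix Set
open scoped ComplexOrder

namespace Pool.Agent.LibSch

section T5

variable {m n m' n' : Type} [Fintype m] [Fintype n] [DecidableEq n] [Fintype m'] [Fintype n']
  [DecidableEq n']

/-- the sum of the `s`-th powers of the real parts of the roots of the characteristic polynomial -/
noncomputable def PwBasic_S {n : Type} [Fintype n] [DecidableEq n] (s : ℝ) (H : Matrix n n ℂ) : ℝ :=
  (H.charpoly.roots.map fun z => z.re ^ s).sum

theorem PwBasic_pw (p : ℝ) (M : Matrix m n ℂ) : pw p M = PwBasic_S (p / 2) (Mᴴ * M) := by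
  unfold pw PwBasic_S
  rw [(isHermitian_conjTranspose_mul_self M).roots_charpoly_eq_eigenvalues, Multiset.map_map]
  rfl

theorem pw_nonneg (p : ℝ) (M : Matrix m n ℂ) : 0 ≤ pw p M := by
  unfold pw
  refine Finset.sum_nonneg fun j _ => Real.rpow_nonneg ?_ _
  exact (posSemidef_conjTranspose_mul_self M).eigenvalues_nonneg j

theorem pw_submatrix (p : ℝ) (M : Matrix m n ℂ) (e₁ : m' ≃ m) (e₂ : n' ≃ n) :
    pw p (M.submatrix e₁ e₂) = pw p M := by
  rw [PwBasic_pw, PwBasic_pw]
  have h : (M.submatrix e₁ e₂)ᴴ * M.submatrix e₁ e₂ = reindex e₂.symm e₂.symm (Mᴴ * M) := by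
    rw [conjTranspose_submatrix, submatrix_mul_equiv, reindex_apply]
    rfl
  unfold PwBasic_S
  rw [h, charpoly_reindex]

theorem pw_unitary [DecidableEq m] (p : ℝ) (M : Matrix m n ℂ) (U : unitaryGroup m ℂ)
    (V : unitaryGroup n ℂ) :
    pw p ((U : Matrix m m ℂ) * M * (V : Matrix n n ℂ)) = pw p M := by
  rw [PwBasic_pw, PwBasic_pw]
  have hU : (U : Matrix m m ℂ)ᴴ * (U : Matrix m m ℂ) = 1 := by
    have := U.2
    rw [mem_unitaryGroup_iff'] at this
    exact this
  have hV : (V : Matrix n n ℂ) * (V : Matrix n n ℂ)ᴴ = 1 := by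
    have := V.2
    rw [mem_unitaryGroup_iff] at this
    exact this
  have h : ((U : Matrix m m ℂ) * M * (V : Matrix n n ℂ))ᴴ *
      ((U : Matrix m m ℂ) * M * (V : Matrix n n ℂ)) =
      (V : Matrix n n ℂ)ᴴ * ((Mᴴ * M) * (V : Matrix n n ℂ)) := by
    rw [conjTranspose_mul, conjTranspose_mul]
    have : (V : Matrix n n ℂ)ᴴ * (Mᴴ * (U : Matrix m m ℂ)ᴴ) *
        ((U : Matrix m m ℂ) * M * (V : Matrix n n ℂ)) =
        (V : Matrix n n ℂ)ᴴ * (Mᴴ * ((U : Matrix m m ℂ)ᴴ * (U : Matrix m m ℂ)) * M *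
          (V : Matrix n n ℂ)) := by
      simp only [Matrix.mul_assoc]
    rw [this, hU, Matrix.mul_one]
  unfold PwBasic_S
  rw [h, charpoly_mul_comm, Matrix.mul_assoc, hV, Matrix.mul_one]

theorem PwBasic_S_diagonal {n : Type} [Fintype n] [DecidableEq n] (s : ℝ) (d : n → ℂ) :
    PwBasic_S s (diagonal d) = ∑ i, (d i).re ^ s := by
  unfold PwBasic_S
  rw [charpoly_diagonal, Polynomial.roots_prod]
  · simp
  · simp [Finset.prod_ne_zero_iff, Polynomial.X_sub_C_ne_zero]

theorem pw_blockDiagonal' {ι : Type} [Fintype ι] [DecidableEq ι] {m n : ι → Type}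
    [∀ i, Fintype (m i)] [∀ i, Fintype (n i)] [∀ i, DecidableEq (n i)] (p : ℝ)
    (M : ∀ i, Matrix (m i) (n i) ℂ) :
    pw p (blockDiagonal' M) = ∑ i, pw p (M i) := by
  rw [PwBasic_pw, blockDiagonal'_conjTranspose, ← blockDiagonal'_mul]
  set hH := fun i => isHermitian_conjTranspose_mul_self (M i) with hHdef
  set W : ∀ i, Matrix (n i) (n i) ℂ := fun i => (hH i).eigenvectorUnitary with hW
  set d : ∀ i, n i → ℂ := fun i => (RCLike.ofReal ∘ (hH i).eigenvalues) with hd
  have hspec : ∀ i, (M i)ᴴ * M i = W i * diagonal (d i) * star (W i) := by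
    intro i
    have h := (hH i).spectral_theorem
    rw [Unitary.conjStarAlgAut_apply] at h
    exact h
  have hWW : ∀ i, star (W i) * W i = 1 := by
    intro i
    have := (hH i).eigenvectorUnitary.2
    rw [mem_unitaryGroup_iff'] at this
    exact this
  have h1 : blockDiagonal' (fun i => (M i)ᴴ * M i) =
      blockDiagonal' W * (diagonal (fun ik : Σ i, n i => d ik.1 ik.2) *
        blockDiagonal' (fun i => star (W i))) := by
    rw [← blockDiagonal'_diagonal, ← blockDiagonal'_mul, ← blockDiagonal'_mul]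
    congr 1
    funext i
    rw [hspec i, Matrix.mul_assoc]
  unfold PwBasic_S at *
  rw [h1, charpoly_mul_comm, Matrix.mul_assoc, ← blockDiagonal'_mul]
  have h2 : (fun i => star (W i) * W i) = fun i => (1 : Matrix (n i) (n i) ℂ) := funext hWW
  rw [h2]
  have h3 : blockDiagonal' (fun i => (1 : Matrix (n i) (n i) ℂ)) = 1 := blockDiagonal'_one
  rw [h3, Matrix.mul_one]
  have h4 := PwBasic_S_diagonal (p / 2) (fun ik : Σ i, n i => d ik.1 ik.2)
  unfold PwBasic_S at h4
  rw [h4, Fintype.sum_sigma]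
  rfl

/-- `s = p/2 > 0`; the eigenvalues of `MᴴM` and `MMᴴ` agree up to zeros -/
theorem pw_conjTranspose [DecidableEq m] (p : ℝ) (hp : 0 < p) (M : Matrix m n ℂ) :
    pw p Mᴴ = pw p M := by
  rw [PwBasic_pw, PwBasic_pw, conjTranspose_conjTranspose]
  have h := charpoly_mul_comm' M Mᴴ
  have h2 := congrArg (fun q : Polynomial ℂ => (q.roots.map fun z => z.re ^ (p / 2)).sum) h
  have hne : ∀ {l : Type} [Fintype l] [DecidableEq l] (H : Matrix l l ℂ) (k : ℕ),
      (Polynomial.X ^ k * H.charpoly) ≠ 0 := fun H k =>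
    mul_ne_zero (pow_ne_zero _ Polynomial.X_ne_zero) H.charpoly_monic.ne_zero
  beta_reduce at h2
  rw [Polynomial.roots_mul (hne _ _), Polynomial.roots_mul (hne _ _), Polynomial.roots_X_pow,
    Polynomial.roots_X_pow, Multiset.map_add, Multiset.map_add, Multiset.sum_add,
    Multiset.sum_add, Multiset.map_nsmul, Multiset.map_nsmul, Multiset.map_singleton,
    Multiset.sum_nsmul, Multiset.sum_nsmul, Multiset.sum_singleton, Complex.zero_re,
    Real.zero_rpow (by positivity), smul_zero, smul_zero, zero_add, zero_add] at h2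
  exact h2

end T5

end Pool.Agent.LibSch
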