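import Pool.Agent.LibSch.Defs

open Matrix Set
open scoped ComplexOrder

namespace Pool.Agent.LibSch

/-- the completed square of one column -/
theorem quad_col (a b X Y : ℝ) (ha : 0 < a) (hb : 0 < b)
    (co si P Q b₀ w₀ : ℝ) (hcs : co ^ 2 + si ^ 2 = 1)
    (hP : 0 < P) (hQ : 0 < Q) (hb0 : 0 < b₀) (hw : 0 < w₀) (z₁ z₂ z₃ ϑ : ℝ) :
    4 * (z₁ * ((co * a + si * b) * (co * X + si * Y))
        + z₂ * ((co * b - si * a) * (co * X + si * Y) + (co * a + si * b) * (co * Y - si * X))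
        + z₃ * ((co * b - si * a) * (co * Y - si * X)))
      - 4 / b₀ * ((z₁ ^ 2 / P + z₂ ^ 2 / Q + 2 * ϑ * z₂ / Q + ϑ ^ 2 / Q) * (co * a + si * b) ^ 2
          + (z₂ ^ 2 / P + z₃ ^ 2 / Q - 2 * ϑ * z₂ / P + ϑ ^ 2 / P) * (co * b - si * a) ^ 2
          + (2 * z₁ * z₂ / P + 2 * z₂ * z₃ / Q - 2 * ϑ * z₁ / P + 2 * ϑ * z₃ / Q) *
            ((co * a + si * b) * (co * b - si * a))
          + ϑ ^ 2 * (2 * b₀ / w₀) * (a * b))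
    ≤ b₀ * (P * (co * X + si * Y) ^ 2 + Q * (co * Y - si * X) ^ 2)
        + w₀ / 2 * (b * X - a * Y) ^ 2 / (a * b) := by
  have hdet : b * X - a * Y = (co * b - si * a) * (co * X + si * Y) -
      (co * a + si * b) * (co * Y - si * X) := by
    have : (co * b - si * a) * (co * X + si * Y) - (co * a + si * b) * (co * Y - si * X) =
        (co ^ 2 + si ^ 2) * (b * X - a * Y) := by ring
    rw [this, hcs, one_mul]
  rw [hdet]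
  generalize co * a + si * b = α
  generalize co * b - si * a = β
  generalize co * X + si * Y = χ
  generalize co * Y - si * X = ψ
  have key : b₀ * (P * χ ^ 2 + Q * ψ ^ 2) + w₀ / 2 * (β * χ - α * ψ) ^ 2 / (a * b) -
      (4 * (z₁ * (α * χ) + z₂ * (β * χ + α * ψ) + z₃ * (β * ψ)) -
        4 / b₀ * ((z₁ ^ 2 / P + z₂ ^ 2 / Q + 2 * ϑ * z₂ / Q + ϑ ^ 2 / Q) * α ^ 2
          + (z₂ ^ 2 / P + z₃ ^ 2 / Q - 2 * ϑ * z₂ / P + ϑ ^ 2 / P) * β ^ 2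
          + (2 * z₁ * z₂ / P + 2 * z₂ * z₃ / Q - 2 * ϑ * z₁ / P + 2 * ϑ * z₃ / Q) * (α * β)
          + ϑ ^ 2 * (2 * b₀ / w₀) * (a * b))) =
      b₀ * P * (χ - 2 / (b₀ * P) * ((z₁ * α + z₂ * β) - ϑ * β)) ^ 2 +
      b₀ * Q * (ψ - 2 / (b₀ * Q) * ((z₂ * α + z₃ * β) + ϑ * α)) ^ 2 +
      w₀ / (2 * (a * b)) * ((β * χ - α * ψ) - 4 * (a * b) * ϑ / w₀) ^ 2 := by
    field_simp
    ring
  have hnn : 0 ≤ b₀ * P * (χ - 2 / (b₀ * P) * ((z₁ * α + z₂ * β) - ϑ * β)) ^ 2 +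
      b₀ * Q * (ψ - 2 / (b₀ * Q) * ((z₂ * α + z₃ * β) + ϑ * α)) ^ 2 +
      w₀ / (2 * (a * b)) * ((β * χ - α * ψ) - 4 * (a * b) * ϑ / w₀) ^ 2 := by positivity
  linarith

/-- per-column completed square, summed -/
theorem quad {N : ℕ} (a b X Y : Fin N → ℝ) (ha : ∀ k, 0 < a k) (hb : ∀ k, 0 < b k)
    (ε co si l₁ l₂ P Q b₀ w₀ : ℝ) (hε : 0 ≤ ε) (hcs : co ^ 2 + si ^ 2 = 1)
    (hP : 0 < P) (hQ : 0 < Q) (hb0 : 0 < b₀) (hw : 0 < w₀)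
    (h11 : ∑ k, (co * a k + si * b k) ^ 2 = l₁ - ε)
    (h22 : ∑ k, (co * b k - si * a k) ^ 2 = l₂ - ε)
    (h12 : ∑ k, (co * a k + si * b k) * (co * b k - si * a k) = 0)
    (z₁ z₂ z₃ ϑ : ℝ) :
    4 * (z₁ * ∑ k, (co * a k + si * b k) * (co * X k + si * Y k)
        + z₂ * ∑ k, ((co * b k - si * a k) * (co * X k + si * Y k)
            + (co * a k + si * b k) * (co * Y k - si * X k))
        + z₃ * ∑ k, (co * b k - si * a k) * (co * Y k - si * X k))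
      - 4 / b₀ * (z₁ ^ 2 * l₁ / P + z₃ ^ 2 * l₂ / Q + z₂ ^ 2 * (l₁ / Q + l₂ / P)
          + 2 * ϑ * z₂ * (l₁ / Q - l₂ / P)
          + ϑ ^ 2 * (l₁ / Q + l₂ / P + 2 * b₀ * (∑ k, a k * b k) / w₀))
    ≤ ∑ k, (b₀ * (P * (co * X k + si * Y k) ^ 2 + Q * (co * Y k - si * X k) ^ 2)
        + w₀ / 2 * (b k * X k - a k * Y k) ^ 2 / (a k * b k)) := by
  refine le_trans ?_ (Finset.sum_le_sum fun k _ =>
    quad_col (a k) (b k) (X k) (Y k) (ha k) (hb k) co si P Q b₀ w₀ hcs hP hQ hb0 hw z₁ z₂ z₃ ϑ)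
  have hsum : ∑ k, (4 * (z₁ * ((co * a k + si * b k) * (co * X k + si * Y k))
        + z₂ * ((co * b k - si * a k) * (co * X k + si * Y k) +
          (co * a k + si * b k) * (co * Y k - si * X k))
        + z₃ * ((co * b k - si * a k) * (co * Y k - si * X k)))
      - 4 / b₀ * ((z₁ ^ 2 / P + z₂ ^ 2 / Q + 2 * ϑ * z₂ / Q + ϑ ^ 2 / Q) *
            (co * a k + si * b k) ^ 2
          + (z₂ ^ 2 / P + z₃ ^ 2 / Q - 2 * ϑ * z₂ / P + ϑ ^ 2 / P) * (co * b k - si * a k) ^ 2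
          + (2 * z₁ * z₂ / P + 2 * z₂ * z₃ / Q - 2 * ϑ * z₁ / P + 2 * ϑ * z₃ / Q) *
            ((co * a k + si * b k) * (co * b k - si * a k))
          + ϑ ^ 2 * (2 * b₀ / w₀) * (a k * b k))) =
      4 * (z₁ * ∑ k, (co * a k + si * b k) * (co * X k + si * Y k)
        + z₂ * ∑ k, ((co * b k - si * a k) * (co * X k + si * Y k)
            + (co * a k + si * b k) * (co * Y k - si * X k))
        + z₃ * ∑ k, (co * b k - si * a k) * (co * Y k - si * X k))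
      - 4 / b₀ * ((z₁ ^ 2 / P + z₂ ^ 2 / Q + 2 * ϑ * z₂ / Q + ϑ ^ 2 / Q) *
            (∑ k, (co * a k + si * b k) ^ 2)
          + (z₂ ^ 2 / P + z₃ ^ 2 / Q - 2 * ϑ * z₂ / P + ϑ ^ 2 / P) *
            (∑ k, (co * b k - si * a k) ^ 2)
          + (2 * z₁ * z₂ / P + 2 * z₂ * z₃ / Q - 2 * ϑ * z₁ / P + 2 * ϑ * z₃ / Q) *
            (∑ k, (co * a k + si * b k) * (co * b k - si * a k))
          + ϑ ^ 2 * (2 * b₀ / w₀) * (∑ k, a k * b k)) := by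
    simp only [Finset.mul_sum, ← Finset.sum_add_distrib, ← Finset.sum_sub_distrib]
  rw [hsum, h11, h22, h12]
  apply sub_le_sub_left
  apply mul_le_mul_of_nonneg_left _ (by positivity)
  have hdiff : z₁ ^ 2 * l₁ / P + z₃ ^ 2 * l₂ / Q + z₂ ^ 2 * (l₁ / Q + l₂ / P)
          + 2 * ϑ * z₂ * (l₁ / Q - l₂ / P)
          + ϑ ^ 2 * (l₁ / Q + l₂ / P + 2 * b₀ * (∑ k, a k * b k) / w₀) -
      ((z₁ ^ 2 / P + z₂ ^ 2 / Q + 2 * ϑ * z₂ / Q + ϑ ^ 2 / Q) * (l₁ - ε)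
          + (z₂ ^ 2 / P + z₃ ^ 2 / Q - 2 * ϑ * z₂ / P + ϑ ^ 2 / P) * (l₂ - ε)
          + (2 * z₁ * z₂ / P + 2 * z₂ * z₃ / Q - 2 * ϑ * z₁ / P + 2 * ϑ * z₃ / Q) * 0
          + ϑ ^ 2 * (2 * b₀ / w₀) * (∑ k, a k * b k)) =
      ε * (z₁ ^ 2 / P + z₃ ^ 2 / Q + (z₂ - ϑ) ^ 2 / P + (z₂ + ϑ) ^ 2 / Q) := by
    field_simp
    ring
  have hnn : 0 ≤ ε * (z₁ ^ 2 / P + z₃ ^ 2 / Q + (z₂ - ϑ) ^ 2 / P + (z₂ + ϑ) ^ 2 / Q) := by
    positivity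
  linarith

end Pool.Agent.LibSch
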