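import Pool.Agent.LibSch.Sign

open Matrix Set
open scoped ComplexOrder

namespace Pool.Agent.LibSch

theorem seg_rpow_sq (s x : ℝ) (hs : 0 < s) (hx : 0 < x) :
    x ^ (1 / s) = (x ^ (1 / (2 * s))) ^ 2 := by
  rw [← Real.rpow_natCast, ← Real.rpow_mul hx.le]
  congr 1
  push_cast
  field_simp

theorem seg_deriv_a (s x ξ r : ℝ) (hx : 0 < x + r * ξ) :
    HasDerivAt (fun r : ℝ => (x + r * ξ) ^ (1 / (2 * s)))
      (1 / (2 * s) * ((x + r * ξ) ^ (1 / (2 * s)) * (ξ / (x + r * ξ)))) r := by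
  have h1 : HasDerivAt (fun r : ℝ => x + r * ξ) ξ r := by
    simpa using ((hasDerivAt_id r).mul_const ξ).const_add x
  have h2 := h1.rpow_const (p := 1 / (2 * s)) (Or.inl hx.ne')
  refine h2.congr_deriv ?_
  rw [Real.rpow_sub hx, Real.rpow_one]
  field_simp

theorem seg_deriv_X (s x ξ r : ℝ) (hx : 0 < x + r * ξ) :
    HasDerivAt (fun r : ℝ => (x + r * ξ) ^ (1 / (2 * s)) * (ξ / (x + r * ξ)))
      ((1 / (2 * s) - 1) * (((x + r * ξ) ^ (1 / (2 * s)) * (ξ / (x + r * ξ))) ^ 2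
        / (x + r * ξ) ^ (1 / (2 * s)))) r := by
  have h1 : HasDerivAt (fun r : ℝ => x + r * ξ) ξ r := by
    simpa using ((hasDerivAt_id r).mul_const ξ).const_add x
  have h3 : HasDerivAt (fun r : ℝ => ξ / (x + r * ξ)) (-(ξ * ξ) / (x + r * ξ) ^ 2) r := by
    have := (hasDerivAt_const r ξ).fun_div h1 hx.ne'
    refine this.congr_deriv ?_
    ring
  have h2 := (seg_deriv_a s x ξ r hx).fun_mul h3
  refine h2.congr_deriv ?_
  have : 0 < (x + r * ξ) ^ (1 / (2 * s)) := Real.rpow_pos_of_pos hx _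
  field_simp
  ring

theorem PhiE_seg {N : ℕ} (s ε : ℝ) (hs : 1 / 2 < s) (hs1 : s ≠ 1) (hε : 0 < ε)
    (x y x' y' : Fin N → ℝ) (hx : ∀ k, 0 < x k) (hy : ∀ k, 0 < y k) (hx' : ∀ k, 0 < x' k)
    (hy' : ∀ k, 0 < y' k) (t : ℝ) (ht0 : 0 ≤ t) (ht1 : t ≤ 1) :
    0 ≤ (1 - s) * ((1 - t) * PhiE ε s x y + t * PhiE ε s x' y'
      - PhiE ε s (fun k => (1 - t) * x k + t * x' k) (fun k => (1 - t) * y k + t * y' k)) := by
  rcases Nat.eq_zero_or_pos N with hN | hN
  · subst hN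
    have e1 : x' = x := Subsingleton.elim _ _
    have e2 : y' = y := Subsingleton.elim _ _
    have e3 : (fun k => (1 - t) * x k + t * x' k) = x := Subsingleton.elim _ _
    have e4 : (fun k => (1 - t) * y k + t * y' k) = y := Subsingleton.elim _ _
    rw [e3, e4, e1, e2]
    have : (1 - t) * PhiE ε s x y + t * PhiE ε s x y - PhiE ε s x y = 0 := by ring
    rw [this, mul_zero]
  have hs0 : 0 < s := by linarith
  have : Nonempty (Fin N) := ⟨⟨0, hN⟩⟩
  set ξ : Fin N → ℝ := fun k => x' k - x k with hξ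
  set η : Fin N → ℝ := fun k => y' k - y k with hη
  have hxp : ∀ r ∈ Icc (0 : ℝ) 1, ∀ k, 0 < x k + r * ξ k := by
    intro r hr k
    have : x k + r * ξ k = (1 - r) * x k + r * x' k := by rw [hξ]; ring
    rw [this]
    rcases eq_or_lt_of_le hr.1 with h | h
    · rw [← h]; simpa using hx k
    · have := mul_pos h (hx' k)
      have := mul_nonneg (sub_nonneg.2 hr.2) (hx k).le
      linarith
  have hyp : ∀ r ∈ Icc (0 : ℝ) 1, ∀ k, 0 < y k + r * η k := by
    intro r hr k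
    have : y k + r * η k = (1 - r) * y k + r * y' k := by rw [hη]; ring
    rw [this]
    rcases eq_or_lt_of_le hr.1 with h | h
    · rw [← h]; simpa using hy k
    · have := mul_pos h (hy' k)
      have := mul_nonneg (sub_nonneg.2 hr.2) (hy k).le
      linarith
  set a : ℝ → Fin N → ℝ := fun r k => (x k + r * ξ k) ^ (1 / (2 * s)) with ha
  set b : ℝ → Fin N → ℝ := fun r k => (y k + r * η k) ^ (1 / (2 * s)) with hb
  set X : ℝ → Fin N → ℝ := fun r k => (x k + r * ξ k) ^ (1 / (2 * s)) * (ξ k / (x k + r * ξ k))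
    with hX
  set Y : ℝ → Fin N → ℝ := fun r k => (y k + r * η k) ^ (1 / (2 * s)) * (η k / (y k + r * η k))
    with hY
  set g : ℝ → ℝ := fun r => ε + ∑ k, a r k ^ 2 with hg
  set h : ℝ → ℝ := fun r => ε + ∑ k, b r k ^ 2 with hh
  set w : ℝ → ℝ := fun r => ∑ k, a r k * b r k with hw
  set g' : ℝ → ℝ := fun r => 1 / s * ∑ k, a r k * X r k with hg'
  set h' : ℝ → ℝ := fun r => 1 / s * ∑ k, b r k * Y r k with hh'
  set w' : ℝ → ℝ := fun r => 1 / (2 * s) * ∑ k, (b r k * X r k + a r k * Y r k) with hw'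
  set g'' : ℝ → ℝ := fun r => 1 / s * (1 / s - 1) * ∑ k, X r k ^ 2 with hg''
  set h'' : ℝ → ℝ := fun r => 1 / s * (1 / s - 1) * ∑ k, Y r k ^ 2 with hh''
  set w'' : ℝ → ℝ := fun r => ∑ k, (1 / (2 * s) * (1 / (2 * s)) *
      (b r k * X r k ^ 2 / a r k + a r k * Y r k ^ 2 / b r k + 2 * (X r k * Y r k))
        - 1 / (2 * s) * (b r k * X r k ^ 2 / a r k + a r k * Y r k ^ 2 / b r k)) with hw''
  have hap : ∀ r ∈ Icc (0 : ℝ) 1, ∀ k, 0 < a r k := fun r hr k =>
    Real.rpow_pos_of_pos (hxp r hr k) _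
  have hbp : ∀ r ∈ Icc (0 : ℝ) 1, ∀ k, 0 < b r k := fun r hr k =>
    Real.rpow_pos_of_pos (hyp r hr k) _
  have da : ∀ r ∈ Icc (0 : ℝ) 1, ∀ k, HasDerivAt (fun r => a r k) (1 / (2 * s) * X r k) r :=
    fun r hr k => seg_deriv_a s (x k) (ξ k) r (hxp r hr k)
  have db : ∀ r ∈ Icc (0 : ℝ) 1, ∀ k, HasDerivAt (fun r => b r k) (1 / (2 * s) * Y r k) r :=
    fun r hr k => seg_deriv_a s (y k) (η k) r (hyp r hr k)
  have dX : ∀ r ∈ Icc (0 : ℝ) 1, ∀ k, HasDerivAt (fun r => X r k)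
      ((1 / (2 * s) - 1) * (X r k ^ 2 / a r k)) r :=
    fun r hr k => seg_deriv_X s (x k) (ξ k) r (hxp r hr k)
  have dY : ∀ r ∈ Icc (0 : ℝ) 1, ∀ k, HasDerivAt (fun r => Y r k)
      ((1 / (2 * s) - 1) * (Y r k ^ 2 / b r k)) r :=
    fun r hr k => seg_deriv_X s (y k) (η k) r (hyp r hr k)
  have dg : ∀ r ∈ Icc (0 : ℝ) 1, HasDerivAt g (g' r) r := by
    intro r hr
    have h1 : HasDerivAt (fun r => ∑ k, a r k ^ 2)
        (∑ k, 2 * a r k ^ 1 * (1 / (2 * s) * X r k)) r :=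
      HasDerivAt.fun_sum fun k _ => (da r hr k).fun_pow 2
    refine (h1.const_add ε).congr_deriv ?_
    simp only [hg']
    rw [Finset.mul_sum]
    refine Finset.sum_congr rfl fun k _ => ?_
    field_simp
  have dh : ∀ r ∈ Icc (0 : ℝ) 1, HasDerivAt h (h' r) r := by
    intro r hr
    have h1 : HasDerivAt (fun r => ∑ k, b r k ^ 2)
        (∑ k, 2 * b r k ^ 1 * (1 / (2 * s) * Y r k)) r :=
      HasDerivAt.fun_sum fun k _ => (db r hr k).fun_pow 2
    refine (h1.const_add ε).congr_deriv ?_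
    simp only [hh']
    rw [Finset.mul_sum]
    refine Finset.sum_congr rfl fun k _ => ?_
    field_simp
  have dw : ∀ r ∈ Icc (0 : ℝ) 1, HasDerivAt w (w' r) r := by
    intro r hr
    have h1 : HasDerivAt (fun r => ∑ k, a r k * b r k)
        (∑ k, (1 / (2 * s) * X r k * b r k + a r k * (1 / (2 * s) * Y r k))) r :=
      HasDerivAt.fun_sum fun k _ => (da r hr k).fun_mul (db r hr k)
    refine h1.congr_deriv ?_
    simp only [hw']
    rw [Finset.mul_sum]
    refine Finset.sum_congr rfl fun k _ => ?_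
    ring
  have dg' : ∀ r ∈ Icc (0 : ℝ) 1, HasDerivAt g' (g'' r) r := by
    intro r hr
    have h1 : HasDerivAt (fun r => ∑ k, a r k * X r k)
        (∑ k, (1 / (2 * s) * X r k * X r k + a r k * ((1 / (2 * s) - 1) * (X r k ^ 2 / a r k)))) r :=
      HasDerivAt.fun_sum fun k _ => (da r hr k).fun_mul (dX r hr k)
    refine (h1.const_mul (1 / s)).congr_deriv ?_
    simp only [hg'']
    rw [mul_assoc (1 / s)]
    congr 1
    rw [Finset.mul_sum]
    refine Finset.sum_congr rfl fun k _ => ?_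
    have := (hap r hr k).ne'
    field_simp
    ring
  have dh' : ∀ r ∈ Icc (0 : ℝ) 1, HasDerivAt h' (h'' r) r := by
    intro r hr
    have h1 : HasDerivAt (fun r => ∑ k, b r k * Y r k)
        (∑ k, (1 / (2 * s) * Y r k * Y r k + b r k * ((1 / (2 * s) - 1) * (Y r k ^ 2 / b r k)))) r :=
      HasDerivAt.fun_sum fun k _ => (db r hr k).fun_mul (dY r hr k)
    refine (h1.const_mul (1 / s)).congr_deriv ?_
    simp only [hh'']
    rw [mul_assoc (1 / s)]
    congr 1
    rw [Finset.mul_sum]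
    refine Finset.sum_congr rfl fun k _ => ?_
    have := (hbp r hr k).ne'
    field_simp
    ring
  have dw' : ∀ r ∈ Icc (0 : ℝ) 1, HasDerivAt w' (w'' r) r := by
    intro r hr
    have h1 : HasDerivAt (fun r => ∑ k, (b r k * X r k + a r k * Y r k))
        (∑ k, ((1 / (2 * s) * Y r k * X r k + b r k * ((1 / (2 * s) - 1) * (X r k ^ 2 / a r k)))
          + (1 / (2 * s) * X r k * Y r k + a r k * ((1 / (2 * s) - 1) * (Y r k ^ 2 / b r k))))) r :=
      HasDerivAt.fun_sum fun k _ =>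
        ((db r hr k).fun_mul (dX r hr k)).fun_add ((da r hr k).fun_mul (dY r hr k))
    refine (h1.const_mul (1 / (2 * s))).congr_deriv ?_
    simp only [hw'']
    rw [Finset.mul_sum]
    refine Finset.sum_congr rfl fun k _ => ?_
    have := (hap r hr k).ne'
    have := (hbp r hr k).ne'
    field_simp
    ring
  -- positivity
  have wpos : ∀ r ∈ Icc (0 : ℝ) 1, 0 < w r := fun r hr =>
    Finset.sum_pos (fun k _ => mul_pos (hap r hr k) (hbp r hr k)) Finset.univ_nonempty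
  have gpos : ∀ r, 0 < g r := fun r =>
    add_pos_of_pos_of_nonneg hε (Finset.sum_nonneg fun k _ => sq_nonneg _)
  have hpos : ∀ r, 0 < h r := fun r =>
    add_pos_of_pos_of_nonneg hε (Finset.sum_nonneg fun k _ => sq_nonneg _)
  have hdet : ∀ r, w r ^ 2 < g r * h r := by
    intro r
    have hCS : w r ^ 2 ≤ (∑ k, a r k ^ 2) * (∑ k, b r k ^ 2) :=
      Finset.sum_mul_sq_le_sq_mul_sq _ _ _
    have h1 : 0 ≤ ∑ k, a r k ^ 2 := Finset.sum_nonneg fun k _ => sq_nonneg _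
    have h2 : 0 ≤ ∑ k, b r k ^ 2 := Finset.sum_nonneg fun k _ => sq_nonneg _
    simp only [hg, hh]
    nlinarith [mul_pos hε hε, mul_nonneg hε.le h1, mul_nonneg hε.le h2]
  -- the function
  set f : ℝ → ℝ := fun r => (1 - s) * FF s (g r) (h r) (w r) with hf
  have df : ∀ r ∈ Icc (0 : ℝ) 1, HasDerivAt f
      ((1 - s) * D1 s (g r) (h r) (w r) (g' r) (h' r) (w' r)) r := fun r hr =>
    (hasDerivAt_FF s r g h w (g' r) (h' r) (w' r) (wpos r hr) (hdet r) (gpos r) (hpos r)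
      (dg r hr) (dh r hr) (dw r hr)).const_mul _
  have ddf : ∀ r ∈ Icc (0 : ℝ) 1,
      HasDerivAt (fun r => (1 - s) * D1 s (g r) (h r) (w r) (g' r) (h' r) (w' r))
      ((1 - s) * D2 s (g r) (h r) (w r) (g' r) (h' r) (w' r) (g'' r) (h'' r) (w'' r)) r :=
    fun r hr => (hasDerivAt_D1 s r g h w g' h' w' (g'' r) (h'' r) (w'' r) (wpos r hr) (hdet r)
      (gpos r) (hpos r) (dg r hr) (dh r hr) (dw r hr) (dg' r hr) (dh' r hr) (dw' r hr)).const_mul _
  have hint : interior (Icc (0 : ℝ) 1) ⊆ Icc 0 1 := interior_subset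
  have hconv : ConvexOn ℝ (Icc (0 : ℝ) 1) f :=
    convexOn_of_hasDerivWithinAt2_nonneg (convex_Icc 0 1)
      (fun r hr => (df r hr).continuousAt.continuousWithinAt)
      (fun r hr => (df r (hint hr)).hasDerivWithinAt)
      (fun r hr => (ddf r (hint hr)).hasDerivWithinAt)
      (fun r hr => D2_sign s ε hs hs1 hε (a r) (b r) (X r) (Y r) (hap r (hint hr))
        (hbp r (hint hr)) hN)
  have hmain := hconv.2 (show (0 : ℝ) ∈ Icc (0 : ℝ) 1 by simp)
    (show (1 : ℝ) ∈ Icc (0 : ℝ) 1 by simp) (sub_nonneg.2 ht1) ht0 (by ring)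
  have efr : ∀ r ∈ Icc (0 : ℝ) 1, f r = (1 - s) * PhiE ε s (fun k => x k + r * ξ k)
      (fun k => y k + r * η k) := by
    intro r hr
    simp only [hf, hg, hh, hw, ha, hb, PhiE]
    congr 2
    · congr 1
      exact Finset.sum_congr rfl fun k _ => (seg_rpow_sq s _ hs0 (hxp r hr k)).symm
    · congr 1
      exact Finset.sum_congr rfl fun k _ => (seg_rpow_sq s _ hs0 (hyp r hr k)).symm
  have e0 : f 0 = (1 - s) * PhiE ε s x y := by
    rw [efr 0 (by simp)]
    simp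
  have e1 : f 1 = (1 - s) * PhiE ε s x' y' := by
    rw [efr 1 (by simp)]
    simp [hξ, hη]
  have et : f ((1 - t) • 0 + t • 1) = (1 - s) * PhiE ε s (fun k => (1 - t) * x k + t * x' k)
      (fun k => (1 - t) * y k + t * y' k) := by
    have : (1 - t) • (0 : ℝ) + t • (1 : ℝ) = t := by simp
    rw [this, efr t ⟨ht0, ht1⟩]
    congr 3
    · funext k
      rw [hξ]; ring
    · funext k
      rw [hη]; ring
  rw [et, e0, e1, smul_eq_mul, smul_eq_mul] at hmain
  linarith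

end Pool.Agent.LibSch
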