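import Pool.Agent.LibSch.Star
import Pool.Agent.LibSch.Quad
import Pool.Agent.LibSch.Calc

open Matrix Set
open scoped ComplexOrder

namespace Pool.Agent.LibSch

/-- optimisation over the dual variables -/
theorem sign_core (s P Q l₁ l₂ δ A B κ κ' u d H1 H2 HX S : ℝ)
    (hs : 0 < s) (hP : 0 < P) (hQ : 0 < Q) (hl₁ : 0 < l₁) (hl₂ : 0 < l₂) (hδ : 0 < δ) (hu : 0 < u)
    (hd : 0 < d) (hA : 0 < A) (hκ' : 0 < κ') (hκ : κ = 2 * u * δ / d)
    (hstar : (A - κ) * (A + κ') ≤ B ^ 2)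
    (hS : ∀ z₁ z₂ z₃ ϑ : ℝ,
      4 * (z₁ * (s * H1) + z₂ * (2 * s * HX) + z₃ * (s * H2))
        - 4 / (u / s) * (z₁ ^ 2 * l₁ / P + z₃ ^ 2 * l₂ / Q + z₂ ^ 2 * A + 2 * ϑ * z₂ * B
          + ϑ ^ 2 * (A + κ')) ≤ S) :
    s * u * (P * H1 ^ 2 / l₁ + Q * H2 ^ 2 / l₂) + 2 * s * d / δ * HX ^ 2 ≤ S := by
  have hAκ : 0 < A + κ' := by positivity
  set z₂ : ℝ := d * HX / (2 * δ) with hz₂
  have h := hS (u * P * H1 / (2 * l₁)) z₂ (u * Q * H2 / (2 * l₂)) (-(z₂ * B) / (A + κ'))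
  refine le_trans ?_ h
  have e1 : 4 / (u / s) * ((u * P * H1 / (2 * l₁)) ^ 2 * l₁ / P) = s * u * (P * H1 ^ 2 / l₁) := by
    field_simp
    ring
  have e2 : 4 / (u / s) * ((u * Q * H2 / (2 * l₂)) ^ 2 * l₂ / Q) = s * u * (Q * H2 ^ 2 / l₂) := by
    field_simp
    ring
  have e3 : 4 * (u * P * H1 / (2 * l₁) * (s * H1)) = 2 * (s * u * (P * H1 ^ 2 / l₁)) := by
    field_simp
    ring
  have e4 : 4 * (u * Q * H2 / (2 * l₂) * (s * H2)) = 2 * (s * u * (Q * H2 ^ 2 / l₂)) := by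
    field_simp
    ring
  have e5 : 4 * (z₂ * (2 * s * HX)) = 4 * s * d / δ * HX ^ 2 := by
    rw [hz₂]
    field_simp
  have e6 : z₂ ^ 2 * A + 2 * (-(z₂ * B) / (A + κ')) * z₂ * B
      + (-(z₂ * B) / (A + κ')) ^ 2 * (A + κ') = z₂ ^ 2 * (A - B ^ 2 / (A + κ')) := by
    field_simp
    ring
  have e7 : A - B ^ 2 / (A + κ') ≤ κ := by
    have : A - κ ≤ B ^ 2 / (A + κ') := by
      rw [le_div_iff₀ hAκ]
      exact hstar
    linarith
  have e8 : 4 / (u / s) * (z₂ ^ 2 * κ) = 2 * s * d / δ * HX ^ 2 := by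
    rw [hz₂, hκ]
    field_simp
    ring
  have e9 : 4 / (u / s) * (z₂ ^ 2 * (A - B ^ 2 / (A + κ'))) ≤ 4 / (u / s) * (z₂ ^ 2 * κ) := by
    gcongr
  have e10 : 4 / (u / s) * ((u * P * H1 / (2 * l₁)) ^ 2 * l₁ / P + (u * Q * H2 / (2 * l₂)) ^ 2 * l₂ / Q
      + z₂ ^ 2 * A + 2 * (-(z₂ * B) / (A + κ')) * z₂ * B
      + (-(z₂ * B) / (A + κ')) ^ 2 * (A + κ')) =
      4 / (u / s) * ((u * P * H1 / (2 * l₁)) ^ 2 * l₁ / P)
      + 4 / (u / s) * ((u * Q * H2 / (2 * l₂)) ^ 2 * l₂ / Q)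
      + 4 / (u / s) * (z₂ ^ 2 * A + 2 * (-(z₂ * B) / (A + κ')) * z₂ * B
      + (-(z₂ * B) / (A + κ')) ^ 2 * (A + κ')) := by ring
  rw [e10, e6, e1, e2]
  have e11 : 4 * (u * P * H1 / (2 * l₁) * (s * H1) + z₂ * (2 * s * HX)
      + u * Q * H2 / (2 * l₂) * (s * H2)) =
      4 * (u * P * H1 / (2 * l₁) * (s * H1)) + 4 * (z₂ * (2 * s * HX))
      + 4 * (u * Q * H2 / (2 * l₂) * (s * H2)) := by ring
  rw [e11, e3, e4, e5]
  have : 4 * s * d / δ * HX ^ 2 = 2 * (2 * s * d / δ * HX ^ 2) := by ring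
  rw [this]
  linarith

theorem lam_facts (x y w : ℝ) (hw : 0 < w) (hx : 0 < x) (hy : 0 < y) (hdet : w ^ 2 < x * y) :
    0 < √((x - y) ^ 2 + 4 * w ^ 2) ∧ √((x - y) ^ 2 + 4 * w ^ 2) ^ 2 = (x - y) ^ 2 + 4 * w ^ 2 ∧
    lamP x y w + lamM x y w = x + y ∧ lamP x y w - lamM x y w = √((x - y) ^ 2 + 4 * w ^ 2) ∧
    0 < lamM x y w ∧ lamM x y w < lamP x y w := by
  have h1 : 0 < (x - y) ^ 2 + 4 * w ^ 2 := by positivity
  have h2 : 0 < √((x - y) ^ 2 + 4 * w ^ 2) := Real.sqrt_pos.2 h1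
  have h3 := Real.sq_sqrt h1.le
  refine ⟨h2, h3, by unfold lamP lamM; ring, by unfold lamP lamM; ring, ?_, ?_⟩
  · unfold lamM
    have : √((x - y) ^ 2 + 4 * w ^ 2) < x + y := by
      rw [Real.sqrt_lt' (by positivity)]
      have h4 : (x + y) ^ 2 = (x - y) ^ 2 + 4 * (x * y) := by ring
      linarith
    linarith
  · unfold lamM lamP
    linarith

/-- the algebra of the sign of the second derivative -/
theorem D2_sign {N : ℕ} (s ε : ℝ) (hs : 1 / 2 < s) (hs1 : s ≠ 1) (hε : 0 < ε)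
    (a b X Y : Fin N → ℝ) (ha : ∀ k, 0 < a k) (hb : ∀ k, 0 < b k) (hN : 0 < N) :
    0 ≤ (1 - s) * D2 s (ε + ∑ k, a k ^ 2) (ε + ∑ k, b k ^ 2) (∑ k, a k * b k)
      (1 / s * ∑ k, a k * X k) (1 / s * ∑ k, b k * Y k)
      (1 / (2 * s) * ∑ k, (b k * X k + a k * Y k))
      (1 / s * (1 / s - 1) * ∑ k, X k ^ 2) (1 / s * (1 / s - 1) * ∑ k, Y k ^ 2)
      (∑ k, (1 / (2 * s) * (1 / (2 * s)) * (b k * X k ^ 2 / a k + a k * Y k ^ 2 / b k
          + 2 * (X k * Y k))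
        - 1 / (2 * s) * (b k * X k ^ 2 / a k + a k * Y k ^ 2 / b k))) := by
  have hs0 : 0 < s := by linarith
  have : Nonempty (Fin N) := ⟨⟨0, hN⟩⟩
  -- sums
  set Saa : ℝ := ∑ k, a k ^ 2 with hSaa
  set Sbb : ℝ := ∑ k, b k ^ 2 with hSbb
  set W : ℝ := ∑ k, a k * b k with hW
  set SaX : ℝ := ∑ k, a k * X k with hSaX
  set SbY : ℝ := ∑ k, b k * Y k with hSbY
  set Sx : ℝ := ∑ k, (b k * X k + a k * Y k) with hSx
  set SXX : ℝ := ∑ k, X k ^ 2 with hSXX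
  set SYY : ℝ := ∑ k, Y k ^ 2 with hSYY
  set SXY : ℝ := ∑ k, X k * Y k with hSXY
  set SD : ℝ := ∑ k, (b k * X k - a k * Y k) ^ 2 / (a k * b k) with hSD
  have hWpos : 0 < W := Finset.sum_pos (fun k _ => mul_pos (ha k) (hb k)) Finset.univ_nonempty
  have hSaa0 : 0 ≤ Saa := Finset.sum_nonneg fun k _ => sq_nonneg _
  have hSbb0 : 0 ≤ Sbb := Finset.sum_nonneg fun k _ => sq_nonneg _
  have hCS : W ^ 2 ≤ Saa * Sbb := by
    rw [hW, hSaa, hSbb]
    exact Finset.sum_mul_sq_le_sq_mul_sq _ _ _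
  have hx : 0 < ε + Saa := by linarith
  have hy : 0 < ε + Sbb := by linarith
  have hdet : W ^ 2 < (ε + Saa) * (ε + Sbb) := by
    have h4 : (ε + Saa) * (ε + Sbb) = ε * ε + ε * Saa + ε * Sbb + Saa * Sbb := by ring
    have h5 := mul_pos hε hε
    have h6 := mul_nonneg hε.le hSaa0
    have h7 := mul_nonneg hε.le hSbb0
    linarith
  obtain ⟨hδ, hδ2, hsum, hdiff, hlM, hlt⟩ := lam_facts _ _ _ hWpos hx hy hdet
  set δ : ℝ := √((ε + Saa - (ε + Sbb)) ^ 2 + 4 * W ^ 2) with hδdef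
  set l₁ : ℝ := lamP (ε + Saa) (ε + Sbb) W with hl₁
  set l₂ : ℝ := lamM (ε + Saa) (ε + Sbb) W with hl₂
  have hlP : 0 < l₁ := hlM.trans hlt
  set P : ℝ := l₁ ^ (s - 1) with hPdef
  set Q : ℝ := l₂ ^ (s - 1) with hQdef
  have hPp : 0 < P := Real.rpow_pos_of_pos hlP _
  have hQp : 0 < Q := Real.rpow_pos_of_pos hlM _
  -- P ≠ Q and the sign
  have hPQ : 0 < (s - 1) * (P - Q) := by
    rcases lt_or_gt_of_ne hs1 with h | h
    · have : P < Q := Real.rpow_lt_rpow_of_neg hlM hlt (by linarith)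
      exact mul_pos_of_neg_of_neg (sub_neg.2 h) (sub_neg.2 this)
    · have : Q < P := Real.rpow_lt_rpow hlM.le hlt (by linarith)
      exact mul_pos (sub_pos.2 h) (sub_pos.2 this)
  set u : ℝ := |1 - s| with hu
  set d : ℝ := |P - Q| with hd
  have hu0 : 0 < u := abs_pos.2 (sub_ne_zero.2 (Ne.symm hs1))
  have hd0 : 0 < d := abs_pos.2 (by rintro h; rw [h] at hPQ; simp at hPQ)
  have hud : u * d = (s - 1) * (P - Q) := by
    rw [hu, hd, ← abs_mul, ← abs_neg, ← neg_mul, neg_sub, abs_of_pos hPQ]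
  have hu2 : u ^ 2 = (1 - s) ^ 2 := sq_abs _
  -- angles
  set c : ℝ := (Saa - Sbb) / δ with hc
  set σ : ℝ := 2 * W / δ with hσ
  have hσ0 : 0 < σ := by positivity
  have hcδ : c * δ = Saa - Sbb := by rw [hc]; field_simp
  have hσδ : σ * δ = 2 * W := by rw [hσ]; field_simp
  have hδ2' : δ ^ 2 = (Saa - Sbb) ^ 2 + 4 * W ^ 2 := by rw [hδ2]; ring
  have hcσ : c ^ 2 + σ ^ 2 = 1 := by
    have : (c ^ 2 + σ ^ 2) * δ ^ 2 = 1 * δ ^ 2 := by
      rw [hδ2']; calc _ = (c * δ) ^ 2 + (σ * δ) ^ 2 := by rw [← hδ2']; ring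
        _ = _ := by rw [hcδ, hσδ]; ring
    exact mul_right_cancel₀ (by positivity) this
  have hcc : c ^ 2 ≤ 1 := by
    have := sq_nonneg σ
    linarith
  have hc1 : c ≤ 1 := (abs_le.1 ((sq_le_one_iff_abs_le_one c).1 hcc)).2
  have hc2 : -1 ≤ c := (abs_le.1 ((sq_le_one_iff_abs_le_one c).1 hcc)).1
  set co : ℝ := √((1 + c) / 2) with hco
  set si : ℝ := √((1 - c) / 2) with hsi
  have hco2 : co ^ 2 = (1 + c) / 2 := Real.sq_sqrt (by linarith)
  have hsi2 : si ^ 2 = (1 - c) / 2 := Real.sq_sqrt (by linarith)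
  have hcosi : co * si = σ / 2 := by
    rw [hco, hsi, ← Real.sqrt_mul (by linarith)]
    rw [show (1 + c) / 2 * ((1 - c) / 2) = (σ / 2) ^ 2 by linear_combination (-1 / 4 : ℝ) * hcσ]
    exact Real.sqrt_sq (by positivity)
  -- hypotheses of quad
  have hh11 : ∑ k, (co * a k + si * b k) ^ 2 = l₁ - ε := by
    have : ∑ k, (co * a k + si * b k) ^ 2 = co ^ 2 * Saa + si ^ 2 * Sbb + 2 * (co * si) * W := by
      rw [hSaa, hSbb, hW, Finset.mul_sum, Finset.mul_sum, Finset.mul_sum,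
        ← Finset.sum_add_distrib, ← Finset.sum_add_distrib]
      exact Finset.sum_congr rfl fun k _ => by ring
    rw [this, hco2, hsi2, hcosi]
    have h1 : c * (Saa - Sbb) + 2 * W * σ = δ := by
      rw [← hcδ, ← hσδ]; linear_combination δ * hcσ
    linarith
  have hh22 : ∑ k, (co * b k - si * a k) ^ 2 = l₂ - ε := by
    have : ∑ k, (co * b k - si * a k) ^ 2 = co ^ 2 * Sbb + si ^ 2 * Saa - 2 * (co * si) * W := by
      rw [hSaa, hSbb, hW, Finset.mul_sum, Finset.mul_sum, Finset.mul_sum,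
        ← Finset.sum_add_distrib, ← Finset.sum_sub_distrib]
      exact Finset.sum_congr rfl fun k _ => by ring
    rw [this, hco2, hsi2, hcosi]
    have h1 : c * (Saa - Sbb) + 2 * W * σ = δ := by
      rw [← hcδ, ← hσδ]; linear_combination δ * hcσ
    linarith
  have hh12 : ∑ k, (co * a k + si * b k) * (co * b k - si * a k) = 0 := by
    have : ∑ k, (co * a k + si * b k) * (co * b k - si * a k) =
        (co ^ 2 - si ^ 2) * W - (co * si) * (Saa - Sbb) := by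
      rw [hSaa, hSbb, hW, ← Finset.sum_sub_distrib, Finset.mul_sum, Finset.mul_sum,
        ← Finset.sum_sub_distrib]
      exact Finset.sum_congr rfl fun k _ => by ring
    rw [this, hco2, hsi2, hcosi]
    rw [← hcδ]
    have : W = σ * δ / 2 := by linarith
    rw [this]; ring
  -- first-order quantities
  set x' : ℝ := 1 / s * SaX with hx'
  set y' : ℝ := 1 / s * SbY with hy'
  set w' : ℝ := 1 / (2 * s) * Sx with hw'
  set H1 : ℝ := hP (ε + Saa) (ε + Sbb) W x' y' w' with hH1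
  set H2 : ℝ := hM (ε + Saa) (ε + Sbb) W x' y' w' with hH2
  set HX : ℝ := hX (ε + Saa) (ε + Sbb) W x' y' w' with hHX
  have hH1e : H1 = (x' + y' + c * (x' - y') + 2 * σ * w') / 2 := by
    rw [hH1, hP, ← hδdef, hc, hσ]; ring
  have hH2e : H2 = (x' + y' - c * (x' - y') - 2 * σ * w') / 2 := by
    rw [hH2, hM, ← hδdef, hc, hσ]; ring
  have hHXe : HX = c * w' - σ / 2 * (x' - y') := by
    rw [hHX, hX, ← hδdef, hc, hσ]; ring
  have hsx : s * x' = SaX := by rw [hx']; field_simp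
  have hsy : s * y' = SbY := by rw [hy']; field_simp
  have hsw : 2 * s * w' = Sx := by rw [hw']; field_simp
  have k1 : ∑ k, (co * a k + si * b k) * (co * X k + si * Y k) = s * H1 := by
    have : ∑ k, (co * a k + si * b k) * (co * X k + si * Y k) =
        co ^ 2 * SaX + si ^ 2 * SbY + co * si * Sx := by
      rw [hSaX, hSbY, hSx, Finset.mul_sum, Finset.mul_sum, Finset.mul_sum,
        ← Finset.sum_add_distrib, ← Finset.sum_add_distrib]
      exact Finset.sum_congr rfl fun k _ => by ring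
    rw [this, hco2, hsi2, hcosi, ← hsx, ← hsy, ← hsw, hH1e]; ring
  have k2 : ∑ k, ((co * b k - si * a k) * (co * X k + si * Y k)
            + (co * a k + si * b k) * (co * Y k - si * X k)) = 2 * s * HX := by
    have : ∑ k, ((co * b k - si * a k) * (co * X k + si * Y k)
            + (co * a k + si * b k) * (co * Y k - si * X k)) =
        (co ^ 2 - si ^ 2) * Sx + 2 * (co * si) * (SbY - SaX) := by
      rw [hSaX, hSbY, hSx, ← Finset.sum_sub_distrib, Finset.mul_sum, Finset.mul_sum,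
        ← Finset.sum_add_distrib]
      exact Finset.sum_congr rfl fun k _ => by ring
    rw [this, hco2, hsi2, hcosi, ← hsx, ← hsy, ← hsw, hHXe]; ring
  have k3 : ∑ k, (co * b k - si * a k) * (co * Y k - si * X k) = s * H2 := by
    have : ∑ k, (co * b k - si * a k) * (co * Y k - si * X k) =
        co ^ 2 * SbY + si ^ 2 * SaX - co * si * Sx := by
      rw [hSaX, hSbY, hSx, Finset.mul_sum, Finset.mul_sum, Finset.mul_sum,
        ← Finset.sum_add_distrib, ← Finset.sum_sub_distrib]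
      exact Finset.sum_congr rfl fun k _ => by ring
    rw [this, hco2, hsi2, hcosi, ← hsx, ← hsy, ← hsw, hH2e]; ring
  -- the sum S
  set b₀ : ℝ := u / s with hb₀
  set w₀ : ℝ := (2 * s - 1) / s * (W * d / δ) with hw₀
  have hb₀0 : 0 < b₀ := by positivity
  have hw₀0 : 0 < w₀ := by
    have : 0 < 2 * s - 1 := by linarith
    positivity
  set S : ℝ := ∑ k, (b₀ * (P * (co * X k + si * Y k) ^ 2 + Q * (co * Y k - si * X k) ^ 2)
        + w₀ / 2 * (b k * X k - a k * Y k) ^ 2 / (a k * b k)) with hS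
  have hstar := star s l₁ l₂ P Q (2 * u * (l₁ - l₂) / d) hs hs1 hlM hlt rfl rfl rfl
  have hκ' : 2 * b₀ * W / w₀ = 2 * u * (l₁ - l₂) / d / (2 * s - 1) := by
    have : 0 < 2 * s - 1 := by linarith
    rw [hb₀, hw₀, hdiff]
    field_simp
  have hcore := sign_core s P Q l₁ l₂ δ (l₁ / Q + l₂ / P) (l₁ / Q - l₂ / P)
    (2 * u * (l₁ - l₂) / d) (2 * u * (l₁ - l₂) / d / (2 * s - 1)) u d H1 H2 HX S hs0 hPp hQp hlP hlM
    hδ hu0 hd0 (by positivity) (by
      have : 0 < 2 * s - 1 := by linarith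
      have : 0 < l₁ - l₂ := by linarith
      positivity) (by rw [hdiff]) hstar (by
      intro z₁ z₂ z₃ ϑ
      have := quad a b X Y ha hb ε co si l₁ l₂ P Q b₀ w₀ hε.le (by rw [hco2, hsi2]; ring) hPp hQp hb₀0
        hw₀0 hh11 hh22 hh12 z₁ z₂ z₃ ϑ
      rw [k1, k2, k3, ← hW, hκ'] at this
      exact this)
  -- compute S
  have hSe : S = b₀ * ((P * co ^ 2 + Q * si ^ 2) * SXX + (P * si ^ 2 + Q * co ^ 2) * SYY
      + 2 * ((P - Q) * (co * si)) * SXY) + w₀ / 2 * SD := by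
    rw [hS, hSXX, hSYY, hSXY, hSD, Finset.mul_sum, Finset.mul_sum, Finset.mul_sum,
      ← Finset.sum_add_distrib, ← Finset.sum_add_distrib, Finset.mul_sum, Finset.mul_sum,
      ← Finset.sum_add_distrib]
    exact Finset.sum_congr rfl fun k _ => by ring
  -- second-order term
  have hw'' : (∑ k, (1 / (2 * s) * (1 / (2 * s)) * (b k * X k ^ 2 / a k + a k * Y k ^ 2 / b k
          + 2 * (X k * Y k))
        - 1 / (2 * s) * (b k * X k ^ 2 / a k + a k * Y k ^ 2 / b k))) =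
        (1 - 2 * s) / (4 * s ^ 2) * SD + (1 - s) / s ^ 2 * SXY := by
    rw [hSD, hSXY, Finset.mul_sum, Finset.mul_sum, ← Finset.sum_add_distrib]
    refine Finset.sum_congr rfl fun k _ => ?_
    have := (ha k).ne'
    have := (hb k).ne'
    field_simp
    ring
  rw [hw'', D2]
  rw [← hl₁, ← hl₂, ← hPdef, ← hQdef, ← hδdef, ← hH1, ← hH2, ← hHX]
  set x'' : ℝ := 1 / s * (1 / s - 1) * SXX with hx''
  set y'' : ℝ := 1 / s * (1 / s - 1) * SYY with hy''
  set w'' : ℝ := (1 - 2 * s) / (4 * s ^ 2) * SD + (1 - s) / s ^ 2 * SXY with hw''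
  have hPQsum : P * hP (ε + Saa) (ε + Sbb) W x'' y'' w'' + Q * hM (ε + Saa) (ε + Sbb) W x'' y'' w''
      = (P * co ^ 2 + Q * si ^ 2) * x'' + (P * si ^ 2 + Q * co ^ 2) * y''
        + 2 * ((P - Q) * (co * si)) * w'' := by
    have e1 : hP (ε + Saa) (ε + Sbb) W x'' y'' w'' = (x'' + y'' + c * (x'' - y'') + 2 * σ * w'') / 2 := by
      rw [hP, ← hδdef, hc, hσ]; ring
    have e2 : hM (ε + Saa) (ε + Sbb) W x'' y'' w'' = (x'' + y'' - c * (x'' - y'') - 2 * σ * w'') / 2 := by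
      rw [hM, ← hδdef, hc, hσ]; ring
    rw [e1, e2, hco2, hsi2, hcosi]; ring
  rw [hPQsum]
  -- final identity
  have hfinal : (1 - s) * (s * ((P * co ^ 2 + Q * si ^ 2) * x'' + (P * si ^ 2 + Q * co ^ 2) * y''
        + 2 * ((P - Q) * (co * si)) * w'')
      + 2 * s * (P - Q) / δ * HX ^ 2 + s * (s - 1) * (P * H1 ^ 2 / l₁ + Q * H2 ^ 2 / l₂)) =
      u * (S - (s * u * (P * H1 ^ 2 / l₁ + Q * H2 ^ 2 / l₂) + 2 * s * d / δ * HX ^ 2)) := by
    have f1 : (1 - s) * (2 * s * (P - Q) / δ * HX ^ 2) = - (u * (2 * s * d / δ * HX ^ 2)) := by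
      have : u * (2 * s * d / δ * HX ^ 2) = (u * d) * (2 * s / δ * HX ^ 2) := by ring
      rw [this, hud]; ring
    have f2 : (1 - s) * (s * (s - 1) * (P * H1 ^ 2 / l₁ + Q * H2 ^ 2 / l₂)) =
        - (u * (s * u * (P * H1 ^ 2 / l₁ + Q * H2 ^ 2 / l₂))) := by
      have : u * (s * u * (P * H1 ^ 2 / l₁ + Q * H2 ^ 2 / l₂)) =
        u ^ 2 * (s * (P * H1 ^ 2 / l₁ + Q * H2 ^ 2 / l₂)) := by ring
      rw [this, hu2]; ring
    have f3 : (1 - s) * (s * ((P * co ^ 2 + Q * si ^ 2) * x'' + (P * si ^ 2 + Q * co ^ 2) * y''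
        + 2 * ((P - Q) * (co * si)) * w'')) = u * S := by
      have g1 : u * S = (u ^ 2 / s) * ((P * co ^ 2 + Q * si ^ 2) * SXX + (P * si ^ 2 + Q * co ^ 2) * SYY
      + 2 * ((P - Q) * (co * si)) * SXY) + (2 * s - 1) / (2 * s) * (W / δ) * (u * d) * SD := by
        rw [hSe, hb₀, hw₀]; field_simp
      rw [g1, hu2, hud, hcosi, hx'', hy'', hw'']
      have hWδ : W / δ = σ / 2 := by rw [hσ]; ring
      rw [hWδ]
      field_simp
      ring
    linear_combination f1 + f2 + f3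
  rw [hfinal]
  exact mul_nonneg hu0.le (by linarith)

end Pool.Agent.LibSch
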