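import Pool.Agent.LibSch.Defs

open Matrix Set
open scoped ComplexOrder

namespace Pool.Agent.LibSch

/-- `sinh (a t) / a ≤ sinh (b t) / b` for `0 < a ≤ b`, `0 ≤ t`. -/
theorem sinh_ratio (a b t : ℝ) (ha : 0 < a) (hab : a ≤ b) (ht : 0 ≤ t) :
    b * Real.sinh (a * t) ≤ a * Real.sinh (b * t) := by
  have hd : ∀ x : ℝ, HasDerivAt (fun x => a * Real.sinh (b * x) - b * Real.sinh (a * x))
      (a * (Real.cosh (b * x) * b) - b * (Real.cosh (a * x) * a)) x := by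
    intro x
    have h1 : HasDerivAt (fun x => b * x) b x := by
      simpa using (hasDerivAt_id x).const_mul b
    have h2 : HasDerivAt (fun x => a * x) a x := by
      simpa using (hasDerivAt_id x).const_mul a
    exact (h1.sinh.const_mul a).sub (h2.sinh.const_mul b)
  have hmono : MonotoneOn (fun x => a * Real.sinh (b * x) - b * Real.sinh (a * x)) (Ici 0) := by
    apply monotoneOn_of_deriv_nonneg (convex_Ici 0)
    · exact fun x _ => (hd x).continuousAt.continuousWithinAt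
    · exact fun x _ => (hd x).differentiableAt.differentiableWithinAt
    · intro x hx
      rw [interior_Ici, mem_Ioi] at hx
      rw [(hd x).deriv]
      have h3 : Real.cosh (a * x) ≤ Real.cosh (b * x) := by
        rw [Real.cosh_le_cosh, abs_of_nonneg (by positivity),
          abs_of_nonneg (mul_nonneg (ha.le.trans hab) hx.le)]
        exact mul_le_mul_of_nonneg_right hab hx.le
      have h4 : a * (Real.cosh (b * x) * b) - b * (Real.cosh (a * x) * a) =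
          a * b * (Real.cosh (b * x) - Real.cosh (a * x)) := by ring
      rw [h4]
      exact mul_nonneg (mul_nonneg ha.le (ha.le.trans hab)) (sub_nonneg.2 h3)
  have h5 := hmono (mem_Ici.2 le_rfl) (mem_Ici.2 ht) ht
  simp only [mul_zero, Real.sinh_zero, sub_self] at h5
  linarith

/-- write `l₁ = ρ e^{2t}`, `l₂ = ρ e^{-2t}` and use `sinh_ratio` with `|1-s| ≤ s` -/
theorem star3 (s l₁ l₂ : ℝ) (hs : 1 / 2 ≤ s) (h2 : 0 < l₂) (h12 : l₂ ≤ l₁) :
    s ^ 2 * (l₁ * l₂ * (l₁ ^ (s - 1) - l₂ ^ (s - 1)) ^ 2) ≤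
      (1 - s) ^ 2 * (l₁ ^ s - l₂ ^ s) ^ 2 := by
  have h1 : 0 < l₁ := h2.trans_le h12
  obtain ⟨r, hr⟩ : ∃ r, r = (Real.log l₁ + Real.log l₂) / 2 := ⟨_, rfl⟩
  obtain ⟨τ, hτ⟩ : ∃ τ, τ = (Real.log l₁ - Real.log l₂) / 2 := ⟨_, rfl⟩
  have hτ0 : 0 ≤ τ := by
    have := Real.log_le_log h2 h12
    rw [hτ]
    linarith
  have e1 : Real.log l₁ = r + τ := by rw [hr, hτ]; ring
  have e2 : Real.log l₂ = r - τ := by rw [hr, hτ]; ring
  have p1 : ∀ x : ℝ, l₁ ^ x = Real.exp (x * r) * Real.exp (x * τ) := by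
    intro x
    rw [Real.rpow_def_of_pos h1, e1, ← Real.exp_add]
    congr 1
    ring
  have p2 : ∀ x : ℝ, l₂ ^ x = Real.exp (x * r) * Real.exp (-(x * τ)) := by
    intro x
    rw [Real.rpow_def_of_pos h2, e2, ← Real.exp_add]
    congr 1
    ring
  have hdiff : ∀ x : ℝ, l₁ ^ x - l₂ ^ x = Real.exp (x * r) * (2 * Real.sinh (x * τ)) := by
    intro x
    rw [p1, p2, Real.sinh_eq]
    ring
  have hprod : l₁ * l₂ = Real.exp r ^ 2 := by
    have a1 := p1 1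
    have a2 := p2 1
    rw [Real.rpow_one, one_mul, one_mul] at a1 a2
    rw [a1, a2]
    have a3 : Real.exp τ * Real.exp (-τ) = 1 := by
      rw [← Real.exp_add, add_neg_cancel, Real.exp_zero]
    calc Real.exp r * Real.exp τ * (Real.exp r * Real.exp (-τ)) =
        Real.exp r ^ 2 * (Real.exp τ * Real.exp (-τ)) := by ring
      _ = Real.exp r ^ 2 := by rw [a3, mul_one]
  have hexp : Real.exp r * Real.exp ((s - 1) * r) = Real.exp (s * r) := by
    rw [← Real.exp_add]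
    congr 1
    ring
  have key : s ^ 2 * Real.sinh ((s - 1) * τ) ^ 2 ≤ (1 - s) ^ 2 * Real.sinh (s * τ) ^ 2 := by
    rcases eq_or_ne s 1 with rfl | hs1
    · simp
    · have hpos : 0 < |s - 1| := abs_pos.2 (sub_ne_zero.2 hs1)
      have hle : |s - 1| ≤ s := by
        rw [abs_le]
        constructor <;> linarith
      have h3 := sinh_ratio |s - 1| s τ hpos hle hτ0
      have h4 : 0 ≤ Real.sinh (|s - 1| * τ) := Real.sinh_nonneg_iff.2 (by positivity)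
      have h5 : Real.sinh ((s - 1) * τ) ^ 2 = Real.sinh (|s - 1| * τ) ^ 2 := by
        rcases abs_cases (s - 1) with ⟨h, -⟩ | ⟨h, -⟩
        · rw [h]
        · rw [h, neg_mul, Real.sinh_neg, neg_sq]
      have h6 : (1 - s) ^ 2 = |s - 1| ^ 2 := by
        rw [sq_abs]
        ring
      rw [h5, h6, ← mul_pow, ← mul_pow]
      exact pow_le_pow_left₀ (mul_nonneg (by linarith) h4) h3 2
  rw [hdiff, hdiff, hprod]
  calc s ^ 2 * (Real.exp r ^ 2 * (Real.exp ((s - 1) * r) * (2 * Real.sinh ((s - 1) * τ))) ^ 2) =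
      (Real.exp r * Real.exp ((s - 1) * r)) ^ 2 * 4 *
        (s ^ 2 * Real.sinh ((s - 1) * τ) ^ 2) := by ring
    _ = Real.exp (s * r) ^ 2 * 4 * (s ^ 2 * Real.sinh ((s - 1) * τ) ^ 2) := by rw [hexp]
    _ ≤ Real.exp (s * r) ^ 2 * 4 * ((1 - s) ^ 2 * Real.sinh (s * τ) ^ 2) :=
      mul_le_mul_of_nonneg_left key (by positivity)
    _ = (1 - s) ^ 2 * (Real.exp (s * r) * (2 * Real.sinh (s * τ))) ^ 2 := by ring

/-- `A² - B² = 4 l₁ l₂ / (P Q)` etc. -/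
theorem star (s l₁ l₂ P Q κ : ℝ) (hs : 1 / 2 < s) (hs1 : s ≠ 1) (h2 : 0 < l₂) (h12 : l₂ < l₁)
    (hP : P = l₁ ^ (s - 1)) (hQ : Q = l₂ ^ (s - 1))
    (hκ : κ = 2 * |1 - s| * (l₁ - l₂) / |P - Q|) :
    (l₁ / Q + l₂ / P - κ) * (l₁ / Q + l₂ / P + κ / (2 * s - 1)) ≤ (l₁ / Q - l₂ / P) ^ 2 := by
  have h1 : 0 < l₁ := h2.trans h12
  have hP0 : 0 < P := hP ▸ Real.rpow_pos_of_pos h1 _
  have hQ0 : 0 < Q := hQ ▸ Real.rpow_pos_of_pos h2 _
  have h3 := star3 s l₁ l₂ hs.le h2 h12.le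
  have hl1 : l₁ ^ s = l₁ * P := by
    rw [hP, Real.rpow_sub_one h1.ne']
    field_simp
  have hl2 : l₂ ^ s = l₂ * Q := by
    rw [hQ, Real.rpow_sub_one h2.ne']
    field_simp
  rw [hl1, hl2, ← hP, ← hQ] at h3
  have hs2 : 0 < 2 * s - 1 := by linarith
  -- `κ` without absolute values
  have hκ' : Q - P ≠ 0 ∧ κ = 2 * (1 - s) * (l₁ - l₂) / (Q - P) := by
    rcases lt_or_gt_of_ne hs1 with hlt | hgt
    · have h4 : P < Q := by
        rw [hP, hQ]
        exact Real.rpow_lt_rpow_of_neg h2 h12 (by linarith)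
      refine ⟨(sub_pos.2 h4).ne', ?_⟩
      rw [hκ, abs_of_pos (by linarith : 0 < 1 - s), abs_of_neg (by linarith : P - Q < 0), neg_sub]
    · have h4 : Q < P := by
        rw [hP, hQ]
        exact Real.rpow_lt_rpow h2.le h12 (by linarith)
      refine ⟨(sub_neg.2 h4).ne, ?_⟩
      rw [hκ, abs_of_neg (by linarith : 1 - s < 0), abs_of_pos (by linarith : 0 < P - Q)]
      rw [← neg_sub P Q, div_neg]
      ring
  obtain ⟨hq, hκ2⟩ := hκ'
  have hE : (2 * s - 1) * (l₁ * l₂) * (Q - P) ^ 2 +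
      (1 - s) ^ 2 * (l₁ - l₂) * (Q - P) * (l₁ * P + l₂ * Q) -
      (1 - s) ^ 2 * (l₁ - l₂) ^ 2 * (P * Q) ≤ 0 := by
    have e : (2 * s - 1) * (l₁ * l₂) * (Q - P) ^ 2 +
      (1 - s) ^ 2 * (l₁ - l₂) * (Q - P) * (l₁ * P + l₂ * Q) -
      (1 - s) ^ 2 * (l₁ - l₂) ^ 2 * (P * Q) =
      s ^ 2 * (l₁ * l₂ * (P - Q) ^ 2) - (1 - s) ^ 2 * (l₁ * P - l₂ * Q) ^ 2 := by ring
    rw [e]
    linarith
  have hfin : (l₁ / Q + l₂ / P - κ) * (l₁ / Q + l₂ / P + κ / (2 * s - 1)) -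
      (l₁ / Q - l₂ / P) ^ 2 =
      4 * ((2 * s - 1) * (l₁ * l₂) * (Q - P) ^ 2 +
      (1 - s) ^ 2 * (l₁ - l₂) * (Q - P) * (l₁ * P + l₂ * Q) -
      (1 - s) ^ 2 * (l₁ - l₂) ^ 2 * (P * Q)) / (P * Q * (Q - P) ^ 2 * (2 * s - 1)) := by
    rw [hκ2]
    field_simp
    ring
  have h5 : 0 ≤ P * Q * (Q - P) ^ 2 * (2 * s - 1) := by positivity
  have h6 := div_nonpos_of_nonpos_of_nonneg (mul_nonpos_of_nonneg_of_nonpos
    (by norm_num : (0 : ℝ) ≤ 4) hE) h5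
  rw [← hfin] at h6
  linarith

end Pool.Agent.LibSch
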